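import Pool.Agent.V8H85.RF.Main

set_option autoImplicit false

/-! A positive definite nonsingular form of rank four over the integral group ring of a group which
is generated by vectors of norm at most three and is not induced from the integers. -/

namespace Pool.Agent.V8H85.RF

open MonoidAlgebra

namespace HermForm

variable {Γ : Type*} [Group Γ]

theorem bar_sum {α : Type*} (s : Finset α) (f : α → MonoidAlgebra ℤ Γ) :
    bar (∑ a ∈ s, f a) = ∑ a ∈ s, bar (f a) := by
  classical
  induction s using Finset.induction_on with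
  | empty => rw [Finset.sum_empty, Finset.sum_empty, bar_zero]
  | insert a s ha ih => rw [Finset.sum_insert ha, Finset.sum_insert ha, bar_add, ih]

/-- the form with a given hermitian Gram matrix on a free module -/
noncomputable def ofMatrix {n : ℕ} (Λ : Matrix (Fin n) (Fin n) (MonoidAlgebra ℤ Γ))
    (hΛ : ∀ i j, Λ j i = bar (Λ i j)) : HermForm Γ (Fin n → MonoidAlgebra ℤ Γ) where
  val u v := ∑ i, ∑ j, u i * Λ i j * bar (v j)
  add_left x y z := by
    rw [← Finset.sum_add_distrib]
    refine Finset.sum_congr rfl fun i _ => ?_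
    rw [← Finset.sum_add_distrib]
    refine Finset.sum_congr rfl fun j _ => ?_
    rw [Pi.add_apply, add_mul, add_mul]
  smul_left a x y := by
    rw [Finset.mul_sum]
    refine Finset.sum_congr rfl fun i _ => ?_
    rw [Finset.mul_sum]
    refine Finset.sum_congr rfl fun j _ => ?_
    rw [Pi.smul_apply, smul_eq_mul, mul_assoc, mul_assoc, mul_assoc]
  symm x y := by
    rw [bar_sum, Finset.sum_comm]
    refine Finset.sum_congr rfl fun i _ => ?_
    rw [bar_sum]
    refine Finset.sum_congr rfl fun j _ => ?_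
    rw [bar_mul, bar_mul, bar_bar, hΛ i j, mul_assoc]

/-- In an induced form an irreducible vector is orthogonal to its proper translates. -/
theorem Extended.orth {P : Type*} [AddCommGroup P] [Module (MonoidAlgebra ℤ Γ) P]
    {h : HermForm Γ P} (hE : h.Extended) {v : P}
    (hv : v ≠ 0 ∧ ∀ a b, v = a + b → h.B a b = 0 → a = 0 ∨ b = 0) {g : Γ} (hg : g ≠ 1) :
    h.B v (act g v) = 0 := by
  classical
  obtain ⟨k, b, Q, hQ⟩ := hE
  have hB : ∀ (γ δ : Γ), γ ≠ δ → ∀ i j, h.B (act γ (b i)) (act δ (b j)) = 0 := by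
    intro γ δ hγδ i j
    rw [h.B_act_act, hQ, coeff_single, Finsupp.single_apply, if_neg]
    intro h1
    exact hγδ (inv_mul_eq_one.1 h1.symm)
  set c := b.repr v with hc
  have hv1 : v = ∑ i, c i • b i := (b.sum_repr v).symm
  let e : Γ → P := fun γ => ∑ i, (c i).coeff γ • act γ (b i)
  have he : ∀ γ δ : Γ, γ ≠ δ → ∀ (p q : Fin k → ℤ),
      h.B (∑ i, p i • act γ (b i)) (∑ i, q i • act δ (b i)) = 0 := by
    intro γ δ hγδ p q
    rw [h.B_sum_left]
    refine Finset.sum_eq_zero fun i _ => ?_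
    rw [h.B_sum_right]
    refine Finset.sum_eq_zero fun j _ => ?_
    rw [h.B_zsmul_left, h.B_zsmul_right, hB γ δ hγδ, mul_zero, mul_zero]
  set U : Finset Γ := Finset.univ.biUnion fun i => (c i).coeff.support with hU
  have hv2 : v = ∑ γ ∈ U, e γ := by
    conv_lhs => rw [hv1]
    change _ = ∑ γ ∈ U, ∑ i, (c i).coeff γ • act γ (b i)
    rw [Finset.sum_comm]
    refine Finset.sum_congr rfl fun i _ => ?_
    exact smul_eq_sum _ _ _ (Finset.subset_biUnion_of_mem (fun i => (c i).coeff.support)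
      (Finset.mem_univ i))
  obtain ⟨γ, hγU, hγ⟩ : ∃ γ ∈ U, e γ ≠ 0 := by
    by_contra hcon
    push Not at hcon
    apply hv.1
    rw [hv2]
    exact Finset.sum_eq_zero hcon
  have hsplit : v = e γ + ∑ δ ∈ U.erase γ, e δ := by
    rw [Finset.add_sum_erase U e hγU]
    exact hv2
  have h0 : h.B (e γ) (∑ δ ∈ U.erase γ, e δ) = 0 := by
    rw [h.B_sum_right]
    refine Finset.sum_eq_zero fun δ hδ => ?_
    exact he γ δ (Finset.ne_of_mem_erase hδ).symm _ _
  rcases hv.2 _ _ hsplit h0 with h1 | h1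
  · exact absurd h1 hγ
  rw [h1, add_zero] at hsplit
  have h2 : act g (e γ) = ∑ i, (c i).coeff γ • act (g * γ) (b i) := by
    rw [act_sum]
    refine Finset.sum_congr rfl fun i _ => ?_
    rw [act_zsmul, act_mul]
  rw [hsplit, h2]
  exact he γ (g * γ) (fun h3 => hg (mul_eq_right.1 h3.symm)) _ _

/-- `t + t⁻¹` -/
noncomputable def xx (t : Γ) : MonoidAlgebra ℤ Γ := single t 1 + single t⁻¹ 1

theorem bar_xx (t : Γ) : bar (xx t) = xx t := by
  unfold xx
  rw [bar_add, bar_single, bar_single, inv_inv, add_comm]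

theorem bar_one : bar (1 : MonoidAlgebra ℤ Γ) = 1 := by
  rw [MonoidAlgebra.one_def, bar_single, inv_one]

theorem bar_ofNat_two : bar (2 : MonoidAlgebra ℤ Γ) = 2 := by
  rw [← one_add_one_eq_two, bar_add, bar_one]

/-- the Gram matrix -/
noncomputable def Lam (t : Γ) : Matrix (Fin 4) (Fin 4) (MonoidAlgebra ℤ Γ) :=
  let x := xx t
  !![1 + x + x * x, x + x * x, 1 + x, x;
     x + x * x, 1 + x + x * x, x, 1 + x;
     1 + x, x, 2, 0;
     x, 1 + x, 0, 2]

theorem Lam_herm (t : Γ) : ∀ i j, Lam t j i = bar (Lam t i j) := by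
  intro i j
  fin_cases i <;> fin_cases j <;>
    simp [Lam, bar_add, bar_mul, bar_one, bar_xx, bar_zero, bar_ofNat_two]

/-- the example -/
noncomputable def exForm (t : Γ) : HermForm Γ (Fin 4 → MonoidAlgebra ℤ Γ) :=
  ofMatrix (Lam t) (Lam_herm t)

theorem exForm_val_sum (t : Γ) (u v : Fin 4 → MonoidAlgebra ℤ Γ) :
    (exForm t).val u v = ∑ i, ∑ j, u i * Lam t i j * bar (v j) := rfl

theorem exForm_val (t : Γ) (u v : Fin 4 → MonoidAlgebra ℤ Γ) : (exForm t).val u v =
    u 0 * (1 + xx t + xx t * xx t) * bar (v 0) + u 0 * (xx t + xx t * xx t) * bar (v 1) +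
      u 0 * (1 + xx t) * bar (v 2) + u 0 * xx t * bar (v 3) +
    (u 1 * (xx t + xx t * xx t) * bar (v 0) + u 1 * (1 + xx t + xx t * xx t) * bar (v 1) +
      u 1 * xx t * bar (v 2) + u 1 * (1 + xx t) * bar (v 3)) +
    (u 2 * (1 + xx t) * bar (v 0) + u 2 * xx t * bar (v 1) + u 2 * 2 * bar (v 2)) +
    (u 3 * xx t * bar (v 0) + u 3 * (1 + xx t) * bar (v 1) + u 3 * 2 * bar (v 3)) := by
  change ∑ i, ∑ j, u i * Lam t i j * bar (v j) = _
  simp only [Fin.sum_univ_four]
  simp [Lam]

/-- the coordinates of a vector -/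
noncomputable def y0 (t : Γ) (u : Fin 4 → MonoidAlgebra ℤ Γ) : MonoidAlgebra ℤ Γ :=
  (u 0 + u 1) * (1 + 2 * xx t) + 2 * u 2 + 2 * u 3
noncomputable def y1 (u : Fin 4 → MonoidAlgebra ℤ Γ) : MonoidAlgebra ℤ Γ :=
  u 0 - u 1 + 2 * u 2 - 2 * u 3
noncomputable def y2 (u : Fin 4 → MonoidAlgebra ℤ Γ) : MonoidAlgebra ℤ Γ := u 0 + u 1
noncomputable def y3 (u : Fin 4 → MonoidAlgebra ℤ Γ) : MonoidAlgebra ℤ Γ := u 0 - u 1

theorem bar_sub (a b : MonoidAlgebra ℤ Γ) : bar (a - b) = bar a - bar b := by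
  have h := bar_add (a - b) b
  rw [sub_add_cancel] at h
  rw [h, add_sub_cancel_right]

theorem four_val (t : Γ) (u v : Fin 4 → MonoidAlgebra ℤ Γ) : 4 * (exForm t).val u v =
    y0 t u * bar (y0 t v) + y1 u * bar (y1 v) + y2 u * bar (y2 v) + y3 u * bar (y3 v) := by
  rw [exForm_val]
  unfold y0 y1 y2 y3
  simp only [bar_add, bar_sub, bar_mul, bar_one, bar_xx, bar_ofNat_two]
  generalize xx t = x
  generalize bar (v 0) = a
  generalize bar (v 1) = b
  generalize bar (v 2) = c
  generalize bar (v 3) = d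
  noncomm_ring

/-- the coefficient of the identity in `w * bar w` -/
theorem coeff_mul_bar (w : MonoidAlgebra ℤ Γ) (U : Finset Γ) (hU : w.coeff.support ⊆ U) :
    (w * bar w).coeff 1 = ∑ g ∈ U, (w.coeff g) ^ 2 := by
  rw [coeff_mul_apply_left, Finsupp.sum]
  rw [← Finset.sum_subset hU]
  · refine Finset.sum_congr rfl fun g _ => ?_
    rw [coeff_bar, mul_one, inv_inv, sq]
  · intro g _ hg
    rw [Finsupp.notMem_support_iff.1 hg]
    norm_num

/-- the sum of the squares of the coordinates at `g` -/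
noncomputable def qq (t : Γ) (u : Fin 4 → MonoidAlgebra ℤ Γ) (g : Γ) : ℤ :=
  ((y0 t u).coeff g) ^ 2 + ((y1 u).coeff g) ^ 2 + ((y2 u).coeff g) ^ 2 + ((y3 u).coeff g) ^ 2

open Classical in
/-- all positions -/
noncomputable def UU (t : Γ) (u : Fin 4 → MonoidAlgebra ℤ Γ) : Finset Γ :=
  (y0 t u).coeff.support ∪ (y1 u).coeff.support ∪ (y2 u).coeff.support ∪ (y3 u).coeff.support

theorem norm_eq (t : Γ) (u : Fin 4 → MonoidAlgebra ℤ Γ) :
    4 * (exForm t).B u u = ∑ g ∈ UU t u, qq t u g := by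
  classical
  have h1 : 4 * (exForm t).B u u = (4 * (exForm t).val u u).coeff 1 := by
    have h2 : (4 * (exForm t).val u u) = (4 : ℤ) • (exForm t).val u u := by
      rw [zsmul_eq_mul]; norm_num
    rw [h2, coeff_smul, Finsupp.smul_apply, smul_eq_mul]
    rfl
  rw [h1, four_val, coeff_add, coeff_add, coeff_add, Finsupp.add_apply, Finsupp.add_apply,
    Finsupp.add_apply, coeff_mul_bar _ (UU t u), coeff_mul_bar _ (UU t u),
    coeff_mul_bar _ (UU t u), coeff_mul_bar _ (UU t u), ← Finset.sum_add_distrib,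
    ← Finset.sum_add_distrib, ← Finset.sum_add_distrib]
  · rfl
  · exact Finset.subset_union_right
  · exact Finset.subset_union_right.trans Finset.subset_union_left
  · exact (Finset.subset_union_right.trans Finset.subset_union_left).trans
      Finset.subset_union_left
  · exact (Finset.subset_union_left.trans Finset.subset_union_left).trans
      Finset.subset_union_left

theorem qq_nonneg (t : Γ) (u : Fin 4 → MonoidAlgebra ℤ Γ) (g : Γ) : 0 ≤ qq t u g := by
  unfold qq; positivity

theorem qq_eq_zero (t : Γ) (u : Fin 4 → MonoidAlgebra ℤ Γ) {g : Γ} (hg : g ∉ UU t u) :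
    qq t u g = 0 := by
  classical
  unfold UU at hg
  simp only [Finset.mem_union, not_or, Finsupp.notMem_support_iff] at hg
  unfold qq
  rw [hg.1.1.1, hg.1.1.2, hg.1.2, hg.2]
  norm_num

theorem y_eq_zero {t : Γ} {u : Fin 4 → MonoidAlgebra ℤ Γ} {g : Γ} (h : qq t u g = 0) :
    (y0 t u).coeff g = 0 ∧ (y1 u).coeff g = 0 ∧ (y2 u).coeff g = 0 ∧ (y3 u).coeff g = 0 := by
  unfold qq at h
  refine ⟨?_, ?_, ?_, ?_⟩ <;> nlinarith [sq_nonneg ((y0 t u).coeff g), sq_nonneg ((y1 u).coeff g),
    sq_nonneg ((y2 u).coeff g), sq_nonneg ((y3 u).coeff g)]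

/-- the coordinates in terms of the coefficients -/
theorem coeff_two_mul (w : MonoidAlgebra ℤ Γ) (g : Γ) : (2 * w).coeff g = 2 * w.coeff g := by
  rw [two_mul, coeff_add, Finsupp.add_apply, two_mul]

theorem coeff_mul_xx (t : Γ) (w : MonoidAlgebra ℤ Γ) (g : Γ) :
    (w * xx t).coeff g = w.coeff (g * t⁻¹) + w.coeff (g * t) := by
  unfold xx
  rw [mul_add, coeff_add, Finsupp.add_apply, coeff_mul_single_apply, coeff_mul_single_apply,
    inv_inv, mul_one, mul_one]

theorem y0_coeff (t : Γ) (u : Fin 4 → MonoidAlgebra ℤ Γ) (g : Γ) :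
    (y0 t u).coeff g = (y2 u).coeff g + 2 * ((y2 u).coeff (g * t⁻¹) + (y2 u).coeff (g * t)) +
      2 * (u 2).coeff g + 2 * (u 3).coeff g := by
  have h1 : y0 t u = y2 u + 2 * (y2 u * xx t) + 2 * u 2 + 2 * u 3 := by
    unfold y0 y2
    noncomm_ring
  rw [h1, coeff_add, coeff_add, coeff_add, Finsupp.add_apply, Finsupp.add_apply,
    Finsupp.add_apply, coeff_two_mul, coeff_two_mul, coeff_two_mul, coeff_mul_xx]

theorem y1_coeff (u : Fin 4 → MonoidAlgebra ℤ Γ) (g : Γ) :
    (y1 u).coeff g = (y2 u).coeff g - 2 * (u 1).coeff g + 2 * (u 2).coeff g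
      - 2 * (u 3).coeff g := by
  have h1 : y1 u = y2 u - 2 * u 1 + 2 * u 2 - 2 * u 3 := by
    unfold y1 y2
    noncomm_ring
  rw [h1, coeff_sub, coeff_add, coeff_sub, Finsupp.sub_apply, Finsupp.add_apply,
    Finsupp.sub_apply, coeff_two_mul, coeff_two_mul, coeff_two_mul]

theorem y3_coeff (u : Fin 4 → MonoidAlgebra ℤ Γ) (g : Γ) :
    (y3 u).coeff g = (y2 u).coeff g - 2 * (u 1).coeff g := by
  have h1 : y3 u = y2 u - 2 * u 1 := by
    unfold y3 y2
    noncomm_ring
  rw [h1, coeff_sub, Finsupp.sub_apply, coeff_two_mul]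

/-- there are no vectors of norm one -/
theorem norm_ne_one {t : Γ} (ht : t ≠ 1) (ht2 : t * t ≠ 1) (u : Fin 4 → MonoidAlgebra ℤ Γ) :
    (exForm t).B u u ≠ 1 := by
  classical
  intro hN
  have hsum := norm_eq t u
  rw [hN, mul_one] at hsum
  have hle : ∀ g, qq t u g ≤ 4 := by
    intro g
    by_cases hg : g ∈ UU t u
    · rw [hsum]
      exact Finset.single_le_sum (f := qq t u) (fun k _ => qq_nonneg t u k) hg
    · rw [qq_eq_zero t u hg]; norm_num
  have hother : ∀ g k, qq t u g = 4 → k ≠ g → qq t u k = 0 := by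
    intro g k hg hk
    by_contra hne
    have hgU : g ∈ UU t u := by
      by_contra h; rw [qq_eq_zero t u h] at hg; norm_num at hg
    have hkU : k ∈ UU t u := by
      by_contra h; exact hne (qq_eq_zero t u h)
    have h1 : ∑ a ∈ ({g, k} : Finset Γ), qq t u a ≤ ∑ a ∈ UU t u, qq t u a := by
      refine Finset.sum_le_sum_of_subset_of_nonneg ?_ fun a _ _ => qq_nonneg t u a
      intro a ha
      rw [Finset.mem_insert, Finset.mem_singleton] at ha
      rcases ha with rfl | rfl
      · exact hgU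
      · exact hkU
    rw [Finset.sum_pair hk.symm, hg, ← hsum] at h1
    have h2 := qq_nonneg t u k
    omega
  by_cases hodd : ∃ g, (y2 u).coeff g % 2 = 1
  · -- a position with odd coordinates
    obtain ⟨g, hg⟩ := hodd
    have h0 := y0_coeff t u g
    have h1 := y1_coeff u g
    have h3 := y3_coeff u g
    have hsq : ∀ a : ℤ, a % 2 = 1 → 1 ≤ a ^ 2 := by
      intro a ha
      have : a ≠ 0 := by rintro rfl; norm_num at ha
      have := sq_nonneg a
      rcases this.eq_or_lt with h | h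
      · exact absurd (pow_eq_zero_iff two_ne_zero |>.1 h.symm) ‹a ≠ 0›
      · omega
    have hq : qq t u g = 4 := by
      refine le_antisymm (hle g) ?_
      unfold qq
      have a0 := hsq ((y0 t u).coeff g) (by omega)
      have a1 := hsq ((y1 u).coeff g) (by omega)
      have a2 := hsq ((y2 u).coeff g) hg
      have a3 := hsq ((y3 u).coeff g) (by omega)
      linarith
    have hgt : g * t ≠ g := fun h => ht (mul_eq_left.1 h)
    have hgtt : g * t * t ≠ g := fun h => by
      rw [mul_assoc] at h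
      exact ht2 (mul_eq_left.1 h)
    obtain ⟨b0, b1, b2, b3⟩ := y_eq_zero (hother g (g * t) hq hgt)
    obtain ⟨-, -, c2, -⟩ := y_eq_zero (hother g (g * t * t) hq hgtt)
    have k0 := y0_coeff t u (g * t)
    have k1 := y1_coeff u (g * t)
    have k3 := y3_coeff u (g * t)
    rw [mul_inv_cancel_right, c2] at k0
    omega
  · -- all coordinates are even
    push Not at hodd
    have heven : ∀ g, (y2 u).coeff g % 2 = 0 := fun g => by
      have := hodd g; omega
    obtain ⟨g, hg⟩ : ∃ g, qq t u g ≠ 0 := by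
      by_contra hcon
      push Not at hcon
      rw [Finset.sum_eq_zero fun g _ => hcon g] at hsum
      norm_num at hsum
    have e0 := y0_coeff t u g
    have e1 := y1_coeff u g
    have e2 := heven g
    have e3 := y3_coeff u g
    have e4 := heven (g * t⁻¹)
    have e5 := heven (g * t)
    obtain ⟨p0, hp0⟩ : ∃ p, (y0 t u).coeff g = 2 * p := ⟨(y0 t u).coeff g / 2, by omega⟩
    obtain ⟨p1, hp1⟩ : ∃ p, (y1 u).coeff g = 2 * p := ⟨(y1 u).coeff g / 2, by omega⟩
    obtain ⟨p2, hp2⟩ : ∃ p, (y2 u).coeff g = 2 * p := ⟨(y2 u).coeff g / 2, by omega⟩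
    obtain ⟨p3, hp3⟩ : ∃ p, (y3 u).coeff g = 2 * p := ⟨(y3 u).coeff g / 2, by omega⟩
    have hq : p0 ^ 2 + p1 ^ 2 + p2 ^ 2 + p3 ^ 2 = 1 := by
      have h1 := hle g
      have h2 := qq_nonneg t u g
      unfold qq at h1 h2 hg
      rw [hp0, hp1, hp2, hp3] at h1 h2 hg
      have h3 : (2 * p0) ^ 2 + (2 * p1) ^ 2 + (2 * p2) ^ 2 + (2 * p3) ^ 2 =
        4 * (p0 ^ 2 + p1 ^ 2 + p2 ^ 2 + p3 ^ 2) := by ring
      rw [h3] at h1 h2 hg
      omega
    -- the parity of the sum
    have hpar : (p0 + p1 + p2 + p3) % 2 = 0 := by omega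
    have hsq : ∀ a : ℤ, a ^ 2 % 2 = a % 2 := by
      intro a
      rcases Int.emod_two_eq_zero_or_one a with h | h
      · rw [sq, Int.mul_emod, h]; norm_num
      · rw [sq, Int.mul_emod, h]; norm_num
    have h0 := hsq p0
    have h1 := hsq p1
    have h2 := hsq p2
    have h3 := hsq p3
    omega

theorem exForm_posDef (t : Γ) : (exForm t).PosDef := by
  classical
  intro u hu
  have h1 := norm_eq t u
  have h2 : 0 ≤ ∑ g ∈ UU t u, qq t u g := Finset.sum_nonneg fun g _ => qq_nonneg t u g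
  have h3 : (exForm t).B u u ≠ 0 := by
    intro h0
    rw [h0, mul_zero] at h1
    have h4 : ∀ g, qq t u g = 0 := by
      intro g
      by_cases hg : g ∈ UU t u
      · exact (Finset.sum_eq_zero_iff_of_nonneg fun k _ => qq_nonneg t u k).1 h1.symm g hg
      · exact qq_eq_zero t u hg
    apply hu
    have hy2 : ∀ g, (y2 u).coeff g = 0 := fun g => (y_eq_zero (h4 g)).2.2.1
    have h1' : ∀ g, (u 1).coeff g = 0 := by
      intro g
      have e3 := y3_coeff u g
      have e2 := hy2 g
      have := (y_eq_zero (h4 g)).2.2.2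
      omega
    have h0' : ∀ g, (u 0).coeff g = 0 := by
      intro g
      have e2 := hy2 g
      unfold y2 at e2
      rw [coeff_add, Finsupp.add_apply, h1' g, add_zero] at e2
      exact e2
    have h2' : ∀ g, (u 2).coeff g = 0 ∧ (u 3).coeff g = 0 := by
      intro g
      obtain ⟨a0, a1, a2, a3⟩ := y_eq_zero (h4 g)
      have e0 := y0_coeff t u g
      have e1 := y1_coeff u g
      rw [hy2, hy2, hy2] at e0
      rw [hy2, h1'] at e1
      omega
    ext i g
    fin_cases i
    · exact h0' g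
    · exact h1' g
    · exact (h2' g).1
    · exact (h2' g).2
  have h4 : (0 : ℤ) < (exForm t).B u u := by omega
  exact h4

/-- the inverse of the Gram matrix -/
noncomputable def Mu (t : Γ) : Matrix (Fin 4) (Fin 4) (MonoidAlgebra ℤ Γ) :=
  let x := xx t
  !![2, 0, -(1 + x), -x;
     0, 2, -x, -(1 + x);
     -(1 + x), -x, 1 + x + x * x, x + x * x;
     -x, -(1 + x), x + x * x, 1 + x + x * x]

theorem Lam_mul_Mu (t : Γ) : Lam t * Mu t = 1 := by
  ext1 i j
  fin_cases i <;> fin_cases j <;>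
    simp [Lam, Mu, Matrix.mul_apply, Fin.sum_univ_four] <;> noncomm_ring

theorem exForm_nonsingular (t : Γ) : (exForm t).Nonsingular := by
  classical
  intro f
  -- the vector `y` with `bar y = Mu * f`
  let y : Fin 4 → MonoidAlgebra ℤ Γ := fun j => bar (∑ k, Mu t j k * f (Pi.single k 1))
  have hy : ∀ x, f x = (exForm t).val x y := by
    intro x
    have h1 : f x = ∑ i, x i * f (Pi.single i 1) := by
      conv_lhs => rw [← Finset.univ_sum_single x, map_sum]
      refine Finset.sum_congr rfl fun i _ => ?_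
      rw [← smul_eq_mul, ← map_smul]
      congr 1
      ext1 j
      by_cases hij : j = i
      · subst hij; simp
      · simp [hij]
    have h2 : ∀ i, ∑ j, Lam t i j * (∑ k, Mu t j k * f (Pi.single k 1)) = f (Pi.single i 1) := by
      intro i
      simp only [Finset.mul_sum]
      rw [Finset.sum_comm]
      have h3 : ∀ k, ∑ j, Lam t i j * (Mu t j k * f (Pi.single k 1)) =
          (1 : Matrix (Fin 4) (Fin 4) (MonoidAlgebra ℤ Γ)) i k * f (Pi.single k 1) := by
        intro k
        rw [← Lam_mul_Mu t, Matrix.mul_apply, Finset.sum_mul]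
        exact Finset.sum_congr rfl fun j _ => (mul_assoc _ _ _).symm
      rw [Finset.sum_congr rfl fun k _ => h3 k]
      simp [Matrix.one_apply]
    change _ = ∑ i, ∑ j, x i * Lam t i j * bar (y j)
    rw [h1]
    refine Finset.sum_congr rfl fun i _ => ?_
    rw [← h2 i, Finset.mul_sum]
    refine Finset.sum_congr rfl fun j _ => ?_
    change _ = x i * Lam t i j * bar (bar _)
    rw [bar_bar, mul_assoc]
  refine ⟨y, hy, fun z hz => ?_⟩
  by_contra hne
  have h1 : (exForm t).val (z - y) (z - y) = 0 := by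
    have h2 : (exForm t).val (z - y) z = (exForm t).val (z - y) y := by
      rw [← hz, ← hy]
    have h3 : (exForm t).val (z - y) (z - y) + (exForm t).val (z - y) y =
        (exForm t).val (z - y) z := by
      rw [← (exForm t).add_right, sub_add_cancel]
    rw [h2] at h3
    exact add_eq_right.1 h3
  have h2 := exForm_posDef t (z - y) (sub_ne_zero.2 hne)
  rw [h1] at h2
  exact lt_irrefl _ h2

theorem e0_val (t : Γ) (i : Fin 4) :
    (exForm t).val (Pi.single i 1) (Pi.single i 1) = Lam t i i := by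
  rw [exForm_val_sum, Finset.sum_eq_single i, Finset.sum_eq_single i]
  · rw [Pi.single_eq_same, bar_one, one_mul, mul_one]
  · intro b _ hb
    rw [Pi.single_eq_of_ne hb, bar_zero, mul_zero]
  · intro h; exact absurd (Finset.mem_univ i) h
  · intro a _ ha
    refine Finset.sum_eq_zero fun b _ => ?_
    rw [Pi.single_eq_of_ne ha, zero_mul, zero_mul]
  · intro h; exact absurd (Finset.mem_univ i) h

theorem coeff_one_one : (1 : MonoidAlgebra ℤ Γ).coeff 1 = 1 := by
  rw [MonoidAlgebra.one_def, coeff_single, Finsupp.single_eq_same]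

theorem coeff_xx (t g : Γ) [DecidableEq Γ] :
    (xx t).coeff g = (if t = g then 1 else 0) + (if t⁻¹ = g then 1 else 0) := by
  unfold xx
  rw [coeff_add, Finsupp.add_apply, coeff_single, coeff_single, Finsupp.single_apply,
    Finsupp.single_apply]

theorem norm_e (t : Γ) (ht : t ≠ 1) (ht2 : t * t ≠ 1) (i : Fin 4) :
    (exForm t).B (Pi.single i 1) (Pi.single i 1) ≤ 3 := by
  classical
  unfold B
  rw [e0_val t]
  have hinv : t⁻¹ ≠ t := fun h => ht2 (by nth_rewrite 1 [← h]; exact inv_mul_cancel t)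
  have hx : (xx t).coeff 1 = 0 := by
    rw [coeff_xx, if_neg ht, if_neg (fun h => ht (inv_eq_one.1 h))]; norm_num
  have hxx : (xx t * xx t).coeff 1 = 2 := by
    rw [coeff_mul_xx, coeff_xx, coeff_xx, one_mul, one_mul, if_pos rfl, if_pos rfl,
      if_neg, if_neg]
    · norm_num
    · exact hinv
    · exact hinv.symm
  have h11 : (1 + xx t + xx t * xx t).coeff 1 = 3 := by
    rw [coeff_add, coeff_add, Finsupp.add_apply, Finsupp.add_apply, hx, hxx, coeff_one_one]
    norm_num
  have h2 : (2 : MonoidAlgebra ℤ Γ).coeff 1 = 2 := by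
    rw [← one_add_one_eq_two, coeff_add, Finsupp.add_apply, coeff_one_one]
    norm_num
  fin_cases i
  · exact h11.le
  · exact h11.le
  · exact h2.le.trans (by norm_num)
  · exact h2.le.trans (by norm_num)

theorem exForm_gen (t : Γ) (ht : t ≠ 1) (ht2 : t * t ≠ 1) : (exForm t).GeneratedBy 3 := by
  unfold GeneratedBy
  rw [eq_top_iff]
  intro u _
  have h1 : u = ∑ i, u i • (Pi.single i (1 : MonoidAlgebra ℤ Γ) : Fin 4 → MonoidAlgebra ℤ Γ) := by
    conv_lhs => rw [← Finset.univ_sum_single u]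
    refine Finset.sum_congr rfl fun i _ => ?_
    ext1 j
    by_cases hij : j = i
    · subst hij; simp
    · simp [hij]
  rw [h1]
  exact sum_mem fun i _ => Submodule.smul_mem _ _ (Submodule.subset_span (norm_e t ht ht2 i))

theorem exForm_not_extended (t : Γ) (ht : t ≠ 1) (ht2 : t * t ≠ 1) : ¬ (exForm t).Extended := by
  classical
  intro hE
  set e : Fin 4 → MonoidAlgebra ℤ Γ := Pi.single 0 1 with he
  have he0 : e ≠ 0 := by
    intro h
    have h1 := congrFun h 0
    rw [he, Pi.single_eq_same, Pi.zero_apply] at h1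
    have h2 := congrArg (fun a => a.coeff (1 : Γ)) h1
    simp only [coeff_one_one, coeff_zero, Finsupp.zero_apply] at h2
    norm_num at h2
  have hirr : ∀ a b, e = a + b → (exForm t).B a b = 0 → a = 0 ∨ b = 0 := by
    intro a b hab h0
    by_contra hcon
    rw [not_or] at hcon
    have ha : 0 < (exForm t).B a a := exForm_posDef t a hcon.1
    have hb : 0 < (exForm t).B b b := exForm_posDef t b hcon.2
    have h1 := norm_e t ht ht2 0
    rw [← he, hab, (exForm t).B_add, (exForm t).B_add_right, (exForm t).B_add_right,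
      (exForm t).B_symm b a, h0] at h1
    have h2 := norm_ne_one ht ht2 a
    have h3 := norm_ne_one ht ht2 b
    omega
  have h1 := hE.orth ⟨he0, hirr⟩ ht
  rw [← (exForm t).coeff_val, he, e0_val t] at h1
  change (1 + xx t + xx t * xx t).coeff t = 0 at h1
  rw [coeff_add, coeff_add, Finsupp.add_apply, Finsupp.add_apply, coeff_mul_xx, coeff_xx, coeff_xx,
    coeff_xx, if_pos rfl, MonoidAlgebra.one_def, coeff_single, Finsupp.single_apply] at h1
  have e1 : (0 : ℤ) ≤ if (1 : Γ) = t then 1 else 0 := by split_ifs <;> norm_num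
  have e2 : (0 : ℤ) ≤ if t⁻¹ = t then 1 else 0 := by split_ifs <;> norm_num
  have e3 : (0 : ℤ) ≤ if t = t * t⁻¹ then 1 else 0 := by split_ifs <;> norm_num
  have e4 : (0 : ℤ) ≤ if t⁻¹ = t * t⁻¹ then 1 else 0 := by split_ifs <;> norm_num
  have e5 : (0 : ℤ) ≤ if t = t * t then 1 else 0 := by split_ifs <;> norm_num
  have e6 : (0 : ℤ) ≤ if t⁻¹ = t * t then 1 else 0 := by split_ifs <;> norm_num
  omega

end HermForm

end Pool.Agent.V8H85.RF
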