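import Pool.Agent.V8H85.RF.Frame

set_option autoImplicit false

/-! The irreducible vectors of norm at most two: their components are finite. -/

namespace Pool.Agent.V8H85.RF

namespace Frame

variable {L : Type*} [AddCommGroup L] {I : Type*} (F : Frame L I)

/-- irreducible vectors of norm at most two -/
def IsRoot (r : L) : Prop := F.Irr r ∧ F.B r r ≤ 2

theorem IsRoot.ne_zero {F : Frame L I} {r : L} (h : F.IsRoot r) : r ≠ 0 := h.1.1

theorem IsRoot.norm {F : Frame L I} {r : L} (h : F.IsRoot r) : F.B r r = 1 ∨ F.B r r = 2 := by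
  have h1 := F.pos r h.ne_zero
  have h2 := h.2
  omega

/-- vectors of norm one are irreducible -/
theorem irr_of_one {x : L} (h : F.B x x = 1) : F.Irr x := by
  refine ⟨fun h0 => by rw [h0, F.zero_left] at h; exact absurd h (by norm_num), ?_⟩
  intro a b hab h0
  by_contra hc
  rw [not_or] at hc
  have h1 := F.pos a hc.1
  have h2 := F.pos b hc.2
  rw [hab, F.add_left, F.add_right, F.add_right, F.symm b a, h0] at h
  omega

theorem isRoot_of_one {x : L} (h : F.B x x = 1) : F.IsRoot x :=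
  ⟨F.irr_of_one h, by rw [h]; norm_num⟩

/-- a reducible vector of norm two is the sum of two orthogonal vectors of norm one -/
theorem two_of_not_irr {x : L} (h : F.B x x = 2) (hx : ¬ F.Irr x) :
    ∃ a b, x = a + b ∧ F.B a b = 0 ∧ F.B a a = 1 ∧ F.B b b = 1 := by
  have h0 : x ≠ 0 := fun h0 => by rw [h0, F.zero_left] at h; exact absurd h (by norm_num)
  unfold Irr at hx
  push Not at hx
  obtain ⟨a, b, hab, h1, h2, h3⟩ := hx h0
  have h4 := F.pos a h2
  have h5 := F.pos b h3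
  rw [hab, F.add_left, F.add_right, F.add_right, F.symm b a, h1] at h
  exact ⟨a, b, hab, h1, by omega, by omega⟩

/-- vectors of norm at most two are sums of roots -/
theorem mem_closure_of_le_two {x : L} (h : F.B x x ≤ 2) :
    x ∈ AddSubgroup.closure {r | F.IsRoot r} := by
  by_cases h0 : x = 0
  · rw [h0]; exact zero_mem _
  have h1 := F.pos x h0
  by_cases hx : F.Irr x
  · exact AddSubgroup.subset_closure ⟨hx, h⟩
  have h2 : F.B x x = 2 := by
    by_contra h3
    exact hx (F.irr_of_one (by omega))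
  obtain ⟨a, b, hab, -, ha, hb⟩ := F.two_of_not_irr h2 hx
  rw [hab]
  exact add_mem (AddSubgroup.subset_closure (F.isRoot_of_one ha))
    (AddSubgroup.subset_closure (F.isRoot_of_one hb))

/-- A root that is not orthogonal to a vector of norm one is plus or minus that vector. -/
theorem eq_or_neg_of_one {r e : L} (hr : F.IsRoot r) (he : F.B e e = 1) (h : F.B e r ≠ 0) :
    r = e ∨ r = -e := by
  have hcs := F.cs e r
  rw [he, one_mul] at hcs
  have h2 := hr.2
  have h3 : F.B e r ^ 2 ≤ 2 := hcs.trans h2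
  have h4 : F.B e r = 1 ∨ F.B e r = -1 := by
    have h5 : F.B e r < 2 := by nlinarith
    have h6 : -2 < F.B e r := by nlinarith
    omega
  have key : ∀ e : L, F.B e e = 1 → F.B e r = 1 → r = e := by
    intro e he h1
    have h7 : F.B e (r - e) = 0 := by rw [F.sub_right, h1, he]; norm_num
    rcases hr.1.2 e (r - e) (by abel) h7 with h8 | h8
    · rw [h8, F.zero_left] at he; exact absurd he (by norm_num)
    · exact (sub_eq_zero.1 h8)
  rcases h4 with h4 | h4
  · exact Or.inl (key e he h4)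
  · refine Or.inr (key (-e) ?_ ?_)
    · rw [F.neg_left, F.neg_right, he]; norm_num
    · rw [F.neg_left, h4]; norm_num

theorem norm_of_ne {r e : L} (hr : F.IsRoot r) (hr2 : F.B r r = 2) (he : F.B e e = 1) :
    F.B e r = 0 := by
  by_contra h
  rcases F.eq_or_neg_of_one hr he h with h1 | h1
  · rw [h1, he] at hr2; norm_num at hr2
  · rw [h1, F.neg_left, F.neg_right, he] at hr2; norm_num at hr2

/-- the products of roots of norm two -/
theorem prod_roots {r s : L} (hr : F.B r r = 2) (hs : F.B s s = 2) (h : F.B r s ≠ 0) :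
    F.B r s = 1 ∨ F.B r s = -1 ∨ s = r ∨ s = -r := by
  have hcs := F.cs r s
  rw [hr, hs] at hcs
  have h1 : F.B r s ≤ 2 := by nlinarith
  have h2 : -2 ≤ F.B r s := by nlinarith
  have h3 : F.B r s = 1 ∨ F.B r s = -1 ∨ F.B r s = 2 ∨ F.B r s = -2 := by omega
  rcases h3 with h3 | h3 | h3 | h3
  · exact Or.inl h3
  · exact Or.inr (Or.inl h3)
  · refine Or.inr (Or.inr (Or.inl ?_))
    have h4 : F.B (s - r) (s - r) = 0 := by
      rw [F.sub_left, F.sub_right, F.sub_right, F.symm s r, hr, hs, h3]; norm_num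
    exact sub_eq_zero.1 (F.eq_zero_of _ h4)
  · refine Or.inr (Or.inr (Or.inr ?_))
    have h4 : F.B (s + r) (s + r) = 0 := by
      rw [F.add_left, F.add_right, F.add_right, F.symm s r, hr, hs, h3]; norm_num
    exact eq_neg_of_add_eq_zero_left (F.eq_zero_of _ h4)

/-- the vectors at distance two -/
theorem shortcut {r s t u : L} (hr : F.IsRoot r) (hs : F.IsRoot s) (ht : F.IsRoot t)
    (hu : F.IsRoot u) (hrs : F.B r s ≠ 0) (hst : F.B s t ≠ 0) (htu : F.B t u ≠ 0) :
    ∃ v, F.IsRoot v ∧ F.B r v ≠ 0 ∧ F.B v u ≠ 0 := by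
  by_cases hsu : F.B s u = 0
  swap
  · exact ⟨s, hs, hrs, hsu⟩
  by_cases hrt : F.B r t = 0
  swap
  · exact ⟨t, ht, hrt, htu⟩
  -- `s` and `t` have norm two
  have hs2 : F.B s s = 2 := by
    rcases hs.norm with h | h
    · exfalso
      rcases F.eq_or_neg_of_one ht h hst with h1 | h1
      · exact htu (by rw [h1]; exact hsu)
      · exact htu (by rw [h1, F.neg_left, hsu, neg_zero])
    · exact h
  have ht2 : F.B t t = 2 := by
    rcases ht.norm with h | h
    · exfalso
      rcases F.eq_or_neg_of_one hs h (by rw [F.symm]; exact hst) with h1 | h1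
      · exact hrs (by rw [h1]; exact hrt)
      · exact hrs (by rw [h1, F.neg_right, hrt, neg_zero])
    · exact h
  have hr2 : F.B r r = 2 := by
    rcases hr.norm with h | h
    · exfalso
      rcases F.eq_or_neg_of_one hs h hrs with h1 | h1
      · rw [h1, h] at hs2; norm_num at hs2
      · rw [h1, F.neg_left, F.neg_right, h] at hs2; norm_num at hs2
    · exact h
  have main : ∀ t : L, F.B t t = 2 → F.B s t = 1 → F.B r t = 0 → F.B t u ≠ 0 →
      ∃ v, F.IsRoot v ∧ F.B r v ≠ 0 ∧ F.B v u ≠ 0 := by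
    intro t ht2 hst hrt htu
    have hv2 : F.B (s - t) (s - t) = 2 := by
      rw [F.sub_left, F.sub_right, F.sub_right, F.symm t s, hs2, ht2, hst]; norm_num
    have hrv : F.B r (s - t) ≠ 0 := by rw [F.sub_right, hrt, sub_zero]; exact hrs
    have hvu : F.B (s - t) u ≠ 0 := by rw [F.sub_left, hsu, zero_sub]; exact neg_ne_zero.2 htu
    refine ⟨s - t, ⟨?_, hv2.le⟩, hrv, hvu⟩
    by_contra hirr
    obtain ⟨a, b, hab, -, ha, hb⟩ := F.two_of_not_irr hv2 hirr
    apply hrv
    rw [hab, F.add_right, F.symm r a, F.symm r b, F.norm_of_ne hr hr2 ha, F.norm_of_ne hr hr2 hb,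
      add_zero]
  rcases F.prod_roots hs2 ht2 hst with h | h | h | h
  · exact main t ht2 h hrt htu
  · refine main (-t) ?_ ?_ ?_ ?_
    · rw [F.neg_left, F.neg_right, ht2]; norm_num
    · rw [F.neg_right, h]; norm_num
    · rw [F.neg_right, hrt, neg_zero]
    · rw [F.neg_left]; exact neg_ne_zero.2 htu
  · exact absurd (by rw [h]; exact hsu) htu
  · exact absurd (by rw [h, F.neg_left, hsu, neg_zero]) htu

/-- the equivalence relation on the roots -/
def Rel (r u : L) : Prop := ∃ v, F.IsRoot v ∧ F.B r v ≠ 0 ∧ F.B v u ≠ 0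

theorem rel_refl {r : L} (hr : F.IsRoot r) : F.Rel r r :=
  ⟨r, hr, (F.pos r hr.ne_zero).ne', (F.pos r hr.ne_zero).ne'⟩

theorem rel_symm {r u : L} (h : F.Rel r u) : F.Rel u r := by
  obtain ⟨v, hv, h1, h2⟩ := h
  exact ⟨v, hv, by rw [F.symm]; exact h2, by rw [F.symm]; exact h1⟩

theorem rel_trans {r u w : L} (hr : F.IsRoot r) (hu : F.IsRoot u) (hw : F.IsRoot w)
    (h1 : F.Rel r u) (h2 : F.Rel u w) : F.Rel r w := by
  obtain ⟨v, hv, h3, h4⟩ := h1
  obtain ⟨x, hx, h5, h6⟩ := h2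
  obtain ⟨y, hy, h7, h8⟩ := F.shortcut hr hv hu hx h3 h4 h5
  exact F.shortcut hr hy hx hw h7 h8 h6

theorem rel_of_ne {r u : L} (hr : F.IsRoot r) (h : F.B r u ≠ 0) : F.Rel r u :=
  ⟨r, hr, (F.pos r hr.ne_zero).ne', h⟩

/-- the setoid of the roots -/
def setoid : Setoid {r // F.IsRoot r} where
  r a b := F.Rel a.1 b.1
  iseqv := ⟨fun a => F.rel_refl a.2, fun h => F.rel_symm h, fun {a b c} h1 h2 =>
    F.rel_trans a.2 b.2 c.2 h1 h2⟩

/-- the components -/
def Comp : Type _ := Quotient F.setoid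

/-- the class of a root -/
def cl (r : L) (hr : F.IsRoot r) : F.Comp := Quotient.mk F.setoid ⟨r, hr⟩

theorem cl_eq_iff {r u : L} {hr : F.IsRoot r} {hu : F.IsRoot u} :
    F.cl r hr = F.cl u hu ↔ F.Rel r u :=
  Quotient.eq (r := F.setoid) (x := ⟨r, hr⟩) (y := ⟨u, hu⟩)

/-- the roots in a component -/
def rts (c : F.Comp) : Set L := {r | ∃ hr : F.IsRoot r, F.cl r hr = c}

theorem rts_finite (c : F.Comp) : (F.rts c).Finite := by
  obtain ⟨⟨r, hr⟩, rfl⟩ := Quotient.exists_rep c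
  have h1 : F.rts (Quotient.mk F.setoid ⟨r, hr⟩) ⊆
      ⋃ v ∈ {v | F.Irr v ∧ F.B v v ≤ 2 ∧ F.B r v ≠ 0}, {u | F.Irr u ∧ F.B u u ≤ 2 ∧ F.B v u ≠ 0} := by
    rintro u ⟨hu, h⟩
    have h2 : F.Rel u r := F.cl_eq_iff.1 h
    obtain ⟨v, hv, h3, h4⟩ := F.rel_symm h2
    exact Set.mem_biUnion (show v ∈ {v | F.Irr v ∧ F.B v v ≤ 2 ∧ F.B r v ≠ 0} from
      ⟨hv.1, hv.2, h3⟩) ⟨hu.1, hu.2, h4⟩
  exact (Set.Finite.biUnion (F.finite_irr r 2) fun v _ => F.finite_irr v 2).subset h1

theorem rts_nonempty (c : F.Comp) : (F.rts c).Nonempty := by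
  obtain ⟨⟨r, hr⟩, rfl⟩ := Quotient.exists_rep c
  exact ⟨r, hr, rfl⟩

/-- the sublattice of a component -/
def K (c : F.Comp) : AddSubgroup L := AddSubgroup.closure (F.rts c)

theorem B_rts {c d : F.Comp} (hcd : c ≠ d) {r u : L} (hr : r ∈ F.rts c) (hu : u ∈ F.rts d) :
    F.B r u = 0 := by
  obtain ⟨hr, rfl⟩ := hr
  obtain ⟨hu, rfl⟩ := hu
  by_contra h
  exact hcd (F.cl_eq_iff.2 (F.rel_of_ne hr h))

theorem B_K {c d : F.Comp} (hcd : c ≠ d) {x y : L} (hx : x ∈ F.K c) (hy : y ∈ F.K d) :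
    F.B x y = 0 := by
  have h1 : ∀ x ∈ F.rts c, F.B x y = 0 := by
    intro x hx
    refine AddSubgroup.closure_induction (p := fun y _ => F.B x y = 0) ?_ ?_ ?_ ?_ hy
    · intro u hu; exact F.B_rts hcd hx hu
    · exact F.zero_right x
    · intro a b _ _ ha hb; rw [F.add_right, ha, hb, add_zero]
    · intro a _ ha; rw [F.neg_right, ha, neg_zero]
  refine AddSubgroup.closure_induction (p := fun x _ => F.B x y = 0) ?_ ?_ ?_ ?_ hx
  · intro u hu; exact h1 u hu
  · exact F.zero_left y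
  · intro a b _ _ ha hb; rw [F.add_left, ha, hb, add_zero]
  · intro a _ ha; rw [F.neg_left, ha, neg_zero]

/-- a finite sum of vectors in different components is zero only if all of them are -/
theorem eq_zero_of_sum {α : Type*} (s : Finset α) (c : α → F.Comp) (hc : Set.InjOn c s)
    (x : α → L) (hx : ∀ a ∈ s, x a ∈ F.K (c a)) (h : ∑ a ∈ s, x a = 0) : ∀ a ∈ s, x a = 0 := by
  intro a ha
  apply F.eq_zero_of
  have h1 : F.B (x a) (∑ b ∈ s, x b) = F.B (x a) (x a) := by
    rw [F.sum_right]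
    refine Finset.sum_eq_single_of_mem a ha fun b hb hba => ?_
    exact F.B_K (fun h => hba (hc hb ha h.symm)) (hx a ha) (hx b hb)
  rw [← h1, h, F.zero_right]

theorem iSup_K (hgen : AddSubgroup.closure {x | F.B x x ≤ 2} = ⊤) : ⨆ c, F.K c = ⊤ := by
  rw [eq_top_iff, ← hgen, AddSubgroup.closure_le]
  intro x hx
  have h1 : AddSubgroup.closure {r | F.IsRoot r} ≤ ⨆ c, F.K c := by
    rw [AddSubgroup.closure_le]
    intro r hr
    exact AddSubgroup.mem_iSup_of_mem (F.cl r hr) (AddSubgroup.subset_closure ⟨hr, rfl⟩)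
  exact h1 (F.mem_closure_of_le_two hx)

end Frame

end Pool.Agent.V8H85.RF
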