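import Pool.Agent.V8H85.RF.Defs
import Pool.Agent.V8H85.RF.Roots

set_option autoImplicit false

/-! Hermitian forms over the integral group ring of a group: basic properties. -/

namespace Pool.Agent.V8H85.RF

open MonoidAlgebra

section bar

variable {Γ : Type*} [Group Γ]

theorem bar_zero : bar (0 : MonoidAlgebra ℤ Γ) = 0 := mapDomain_zero _

theorem bar_add (a b : MonoidAlgebra ℤ Γ) : bar (a + b) = bar a + bar b := mapDomain_add _ _ _

theorem bar_single (g : Γ) (n : ℤ) : bar (single g n) = single g⁻¹ n := mapDomain_single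

theorem coeff_bar (a : MonoidAlgebra ℤ Γ) (g : Γ) : (bar a).coeff g = a.coeff g⁻¹ := by
  unfold bar
  rw [coeff_mapDomain]
  have h := Finsupp.mapDomain_apply (inv_injective (G := Γ)) a.coeff g⁻¹
  rw [inv_inv] at h
  exact h

theorem bar_bar (a : MonoidAlgebra ℤ Γ) : bar (bar a) = a := by
  apply MonoidAlgebra.ext
  ext g
  rw [coeff_bar, coeff_bar, inv_inv]

theorem bar_mul (a b : MonoidAlgebra ℤ Γ) : bar (a * b) = bar b * bar a := by
  induction a using MonoidAlgebra.induction_linear with
  | zero => rw [zero_mul, bar_zero, mul_zero]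
  | add x y hx hy => rw [add_mul, bar_add, bar_add, mul_add, hx, hy]
  | single g n =>
    induction b using MonoidAlgebra.induction_linear with
    | zero => rw [mul_zero, bar_zero, zero_mul]
    | add x y hx hy => rw [mul_add, bar_add, bar_add, add_mul, hx, hy]
    | single k m =>
      rw [single_mul_single, bar_single, bar_single, bar_single, single_mul_single, mul_inv_rev,
        mul_comm]

theorem eq_sum_single (a : MonoidAlgebra ℤ Γ) (U : Finset Γ) (hU : a.coeff.support ⊆ U) :
    a = ∑ g ∈ U, a.coeff g • single g (1 : ℤ) := by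
  classical
  apply MonoidAlgebra.ext
  ext k
  rw [coeff_sum, Finsupp.finsetSum_apply]
  simp only [coeff_smul, coeff_single, Finsupp.smul_apply, Finsupp.single_apply, smul_eq_mul,
    mul_ite, mul_one, mul_zero]
  rw [Finset.sum_ite_eq' U k]
  split_ifs with h
  · rfl
  · exact Finsupp.notMem_support_iff.1 fun h1 => h (hU h1)

end bar

namespace HermForm

variable {Γ : Type*} [Group Γ] {P : Type*} [AddCommGroup P] [Module (MonoidAlgebra ℤ Γ) P]
  (h : HermForm Γ P)

/-- the coefficient of the identity in the value of the form -/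
noncomputable def B (x y : P) : ℤ := (h.val x y).coeff 1

theorem zero_left (x : P) : h.val 0 x = 0 := by
  have := h.smul_left 0 0 x
  rwa [zero_smul, zero_mul] at this

theorem add_right (x y z : P) : h.val x (y + z) = h.val x y + h.val x z := by
  rw [h.symm, h.add_left, bar_add, ← h.symm, ← h.symm]

theorem smul_right (a : MonoidAlgebra ℤ Γ) (x y : P) : h.val x (a • y) = h.val x y * bar a := by
  rw [h.symm, h.smul_left, bar_mul, ← h.symm]

theorem zero_right (x : P) : h.val x 0 = 0 := by
  rw [h.symm, h.zero_left, bar_zero]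

theorem B_symm (x y : P) : h.B x y = h.B y x := by
  unfold B
  rw [h.symm, coeff_bar, inv_one]

theorem B_add (x y z : P) : h.B (x + y) z = h.B x z + h.B y z := by
  unfold B
  rw [h.add_left]
  rfl

/-- the action of a group element -/
noncomputable def act (g : Γ) (x : P) : P := (single g (1 : ℤ) : MonoidAlgebra ℤ Γ) • x

theorem act_one (x : P) : act (1 : Γ) x = x := by
  unfold act
  rw [← MonoidAlgebra.one_def, one_smul]

theorem act_mul (g k : Γ) (x : P) : act (g * k) x = act g (act k x) := by
  unfold act
  rw [smul_smul, single_mul_single, one_mul]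

theorem act_add (g : Γ) (x y : P) : act g (x + y) = act g x + act g y := smul_add _ _ _

theorem act_zero (g : Γ) : act g (0 : P) = 0 := smul_zero _

theorem act_neg (g : Γ) (x : P) : act g (-x) = -act g x := smul_neg _ _

theorem act_zsmul (g : Γ) (n : ℤ) (x : P) : act g (n • x) = n • act g x := smul_comm _ _ _

theorem act_inv_act (g : Γ) (x : P) : act g⁻¹ (act g x) = x := by
  rw [← act_mul, inv_mul_cancel, act_one]

theorem act_act_inv (g : Γ) (x : P) : act g (act g⁻¹ x) = x := by
  rw [← act_mul, mul_inv_cancel, act_one]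

theorem act_sum {α : Type*} (g : Γ) (s : Finset α) (f : α → P) :
    act g (∑ a ∈ s, f a) = ∑ a ∈ s, act g (f a) := Finset.smul_sum

/-- the coefficients of the values of the form -/
theorem coeff_val (x y : P) (g : Γ) : (h.val x y).coeff g = h.B x (act g y) := by
  unfold B act
  rw [h.smul_right, bar_single, coeff_mul_single_apply, inv_inv, one_mul, mul_one]

theorem B_act (g : Γ) (x y : P) : h.B (act g x) (act g y) = h.B x y := by
  unfold B act
  rw [h.smul_right, h.smul_left, bar_single, coeff_mul_single_apply, inv_inv, one_mul, mul_one,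
    coeff_single_mul_apply, one_mul, inv_mul_cancel]

theorem B_act_act (g k : Γ) (x y : P) :
    h.B (act g x) (act k y) = (h.val x y).coeff (g⁻¹ * k) := by
  rw [h.coeff_val, ← h.B_act g⁻¹, ← act_mul, ← act_mul, inv_mul_cancel, act_one]

theorem B_act_left (g : Γ) (x y : P) : h.B (act g x) y = h.B x (act g⁻¹ y) := by
  rw [← h.B_act g⁻¹, act_inv_act]

theorem smul_eq_sum (a : MonoidAlgebra ℤ Γ) (x : P) (U : Finset Γ) (hU : a.coeff.support ⊆ U) :
    a • x = ∑ g ∈ U, a.coeff g • act g x := by
  conv_lhs => rw [eq_sum_single a U hU]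
  rw [Finset.sum_smul]
  refine Finset.sum_congr rfl fun g _ => ?_
  unfold act
  rw [smul_assoc]

section frame

variable [Module.Finite (MonoidAlgebra ℤ Γ) P] [Module.Projective (MonoidAlgebra ℤ Γ) P]

/-- dual bases -/
theorem exists_dual (hns : h.Nonsingular) : ∃ (n : ℕ) (x z : Fin n → P),
    ∀ y : P, y = ∑ i, h.val y (z i) • x i := by
  obtain ⟨n, π, hπ⟩ := Module.Finite.exists_fin' (MonoidAlgebra ℤ Γ) P
  obtain ⟨s, hs⟩ := Module.projective_lifting_property π LinearMap.id hπ
  choose z hz _ using fun i : Fin n => hns ((LinearMap.proj i).comp s)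
  refine ⟨n, fun i => π (Pi.single i 1), z, fun y => ?_⟩
  have h1 : y = π (s y) := by
    have := congrArg (fun f => f y) hs
    simpa using this.symm
  conv_lhs => rw [h1, ← Finset.univ_sum_single (s y), map_sum]
  refine Finset.sum_congr rfl fun i _ => ?_
  rw [← hz i y, LinearMap.comp_apply, LinearMap.proj_apply, ← map_smul]
  congr 1
  ext j
  by_cases hij : j = i
  · subst hij; simp
  · simp [hij]

end frame

end HermForm

end Pool.Agent.V8H85.RF
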