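import Mathlib

set_option autoImplicit false

/-! Hermitian forms over the integral group ring `ℤΓ` of a group `Γ`: definitions. -/

namespace Pool.Agent.V8H85.RF

open MonoidAlgebra

/-- the involution `∑ n_g g ↦ ∑ n_g g⁻¹` of the integral group ring -/
noncomputable def bar {Γ : Type*} [Group Γ] (a : MonoidAlgebra ℤ Γ) : MonoidAlgebra ℤ Γ :=
  MonoidAlgebra.mapDomain (fun g => g⁻¹) a

/-- A hermitian form on a (left) module `P` over the integral group ring of `Γ`: a biadditive map
to the group ring, linear in the first variable, with `h y x = bar (h x y)`. -/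
structure HermForm (Γ : Type*) [Group Γ] (P : Type*) [AddCommGroup P]
    [Module (MonoidAlgebra ℤ Γ) P] where
  /-- the values of the form -/
  val : P → P → MonoidAlgebra ℤ Γ
  add_left : ∀ x y z, val (x + y) z = val x z + val y z
  smul_left : ∀ (a : MonoidAlgebra ℤ Γ) (x y : P), val (a • x) y = a * val x y
  symm : ∀ x y, val y x = bar (val x y)

namespace HermForm

variable {Γ : Type*} [Group Γ] {P : Type*} [AddCommGroup P] [Module (MonoidAlgebra ℤ Γ) P]
  (h : HermForm Γ P)

/-- The form is nonsingular: each linear functional is `x ↦ h x y` for exactly one `y`. -/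
def Nonsingular : Prop :=
  ∀ f : P →ₗ[MonoidAlgebra ℤ Γ] MonoidAlgebra ℤ Γ, ∃! y, ∀ x, f x = h.val x y

/-- The form is positive definite: the coefficient of the identity in `h x x` is positive for all
`x ≠ 0`. -/
def PosDef : Prop := ∀ x, x ≠ 0 → 0 < (h.val x x).coeff 1

/-- The module is generated by vectors `x` of norm at most `m`: the norm is the coefficient of the
identity in `h x x`. -/
def GeneratedBy (m : ℤ) : Prop :=
  Submodule.span (MonoidAlgebra ℤ Γ) {x | (h.val x x).coeff 1 ≤ m} = ⊤

/-- The form is induced from a form over the integers: there is a basis of the module, the Gram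
matrix of which has integral entries. -/
def Extended : Prop :=
  ∃ (k : ℕ) (b : Module.Basis (Fin k) (MonoidAlgebra ℤ Γ) P) (Q : Matrix (Fin k) (Fin k) ℤ),
    ∀ i j, h.val (b i) (b j) = single 1 (Q i j)

end HermForm

end Pool.Agent.V8H85.RF
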