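import Mathlib

set_option autoImplicit false

/-! Positive definite integral forms with a locally finite frame: the irreducible vectors of bounded
norm which are not orthogonal to a given vector are finite in number. -/

namespace Pool.Agent.V8H85.RF

open Finset

/-- An additive group with a positive definite symmetric integral form and a locally finite
coercive frame. -/
structure Frame (L : Type*) [AddCommGroup L] (I : Type*) where
  B : L → L → ℤ
  add_left : ∀ x y z, B (x + y) z = B x z + B y z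
  symm : ∀ x y, B x y = B y x
  pos : ∀ x, x ≠ 0 → 0 < B x x
  f : I → L
  φ : L → (I →₀ ℤ)
  recon : ∀ x, x = ∑ i ∈ (φ x).support, φ x i • f i
  lf : ∀ i, {j | B (f i) (f j) ≠ 0}.Finite
  C : ℕ
  coer : ∀ x, ∑ i ∈ (φ x).support, (φ x i) ^ 2 ≤ C * B x x

namespace Frame

variable {L : Type*} [AddCommGroup L] {I : Type*} (F : Frame L I)

/-- the form as a biadditive map -/
def bil : L →+ L →+ ℤ :=
  AddMonoidHom.mk' (fun x => AddMonoidHom.mk' (fun y => F.B x y) (fun y z => by
    rw [F.symm, F.add_left, F.symm y, F.symm z])) (fun x y => by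
    ext z
    exact F.add_left x y z)

@[simp] theorem bil_apply (x y : L) : F.bil x y = F.B x y := rfl

theorem add_right (x y z : L) : F.B x (y + z) = F.B x y + F.B x z := (F.bil x).map_add y z
theorem zero_right (x : L) : F.B x 0 = 0 := (F.bil x).map_zero
theorem zero_left (x : L) : F.B 0 x = 0 := by rw [F.symm, F.zero_right]
theorem neg_right (x y : L) : F.B x (-y) = -F.B x y := (F.bil x).map_neg y
theorem neg_left (x y : L) : F.B (-x) y = -F.B x y := by rw [F.symm, F.neg_right, F.symm]
theorem sub_left (x y z : L) : F.B (x - y) z = F.B x z - F.B y z := by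
  rw [sub_eq_add_neg, F.add_left, F.neg_left]; ring
theorem sub_right (x y z : L) : F.B x (y - z) = F.B x y - F.B x z := (F.bil x).map_sub y z
theorem zsmul_right (n : ℤ) (x y : L) : F.B x (n • y) = n * F.B x y := by
  rw [← smul_eq_mul]
  exact map_zsmul (F.bil x) n y
theorem zsmul_left (n : ℤ) (x y : L) : F.B (n • x) y = n * F.B x y := by
  rw [F.symm, F.zsmul_right, F.symm]
theorem sum_right {α : Type*} (s : Finset α) (x : L) (g : α → L) :
    F.B x (∑ i ∈ s, g i) = ∑ i ∈ s, F.B x (g i) := map_sum (F.bil x) g s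
theorem sum_left {α : Type*} (s : Finset α) (x : L) (g : α → L) :
    F.B (∑ i ∈ s, g i) x = ∑ i ∈ s, F.B (g i) x := by
  rw [F.symm, F.sum_right]
  exact Finset.sum_congr rfl fun i _ => F.symm _ _

theorem nonneg (x : L) : 0 ≤ F.B x x := by
  by_cases h : x = 0
  · rw [h, F.zero_left]
  · exact (F.pos x h).le

theorem eq_zero_of (x : L) (h : F.B x x = 0) : x = 0 := by
  by_contra h1
  exact absurd (F.pos x h1) (by rw [h]; exact lt_irrefl 0)

/-- Cauchy-Schwarz -/
theorem cs (x y : L) : F.B x y ^ 2 ≤ F.B x x * F.B y y := by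
  by_cases hy : y = 0
  · rw [hy, F.zero_right, F.zero_left]; simp
  have h1 := F.pos y hy
  have h2 := F.nonneg (F.B y y • x - F.B x y • y)
  rw [F.sub_left, F.sub_right, F.sub_right] at h2
  simp only [F.zsmul_left, F.zsmul_right] at h2
  rw [F.symm y x] at h2
  have h3 : 0 ≤ F.B y y * (F.B x x * F.B y y - F.B x y ^ 2) := by nlinarith
  have h4 := (mul_nonneg_iff_of_pos_left h1).1 h3
  linarith

/-- irreducible vectors -/
def Irr (y : L) : Prop := y ≠ 0 ∧ ∀ a b, y = a + b → F.B a b = 0 → a = 0 ∨ b = 0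

theorem finite_pair (x : L) : {j | F.B x (F.f j) ≠ 0}.Finite := by
  have h1 : {j | F.B x (F.f j) ≠ 0} ⊆
      ⋃ i ∈ (F.φ x).support, {j | F.B (F.f i) (F.f j) ≠ 0} := by
    intro j hj
    rw [Set.mem_ofPred_eq, F.recon x, F.sum_left] at hj
    obtain ⟨i, hi, hij⟩ := Finset.exists_ne_zero_of_sum_ne_zero hj
    rw [F.zsmul_left] at hij
    exact Set.mem_biUnion hi (right_ne_zero_of_mul hij)
  exact (Set.Finite.biUnion (Finset.finite_toSet _) fun i _ => F.lf i).subset h1

open Classical in
/-- neighbourhoods of the set of the indices of frame vectors -/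
noncomputable def nb (x : L) : ℕ → Finset I
  | 0 => (F.finite_pair x).toFinset
  | k + 1 => nb x k ∪ (nb x k).biUnion fun i => (F.lf i).toFinset

theorem nb_zero (x : L) : F.nb x 0 = (F.finite_pair x).toFinset := rfl

open Classical in
theorem nb_succ (x : L) (k : ℕ) :
    F.nb x (k + 1) = F.nb x k ∪ (F.nb x k).biUnion fun i => (F.lf i).toFinset := rfl

theorem nb_mono (x : L) (k : ℕ) : F.nb x k ⊆ F.nb x (k + 1) := by
  classical
  rw [F.nb_succ]
  exact Finset.subset_union_left

theorem nb_zero_subset (x : L) (k : ℕ) : F.nb x 0 ⊆ F.nb x k := by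
  induction k with
  | zero => exact Finset.Subset.refl _
  | succ k ih => exact ih.trans (F.nb_mono x k)

theorem nb_closed (x : L) (k : ℕ) {i j : I} (hi : i ∈ F.nb x k) (hij : F.B (F.f i) (F.f j) ≠ 0) :
    j ∈ F.nb x (k + 1) := by
  classical
  rw [F.nb_succ]
  refine Finset.mem_union_right _ (Finset.mem_biUnion.2 ⟨i, hi, ?_⟩)
  rw [Set.Finite.mem_toFinset]
  exact hij

open Classical in
/-- the part of `y` with indices in `S` -/
noncomputable def part (S : Finset I) (y : L) : L :=
  ∑ i ∈ (F.φ y).support with i ∈ S, F.φ y i • F.f i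

theorem key (x y : L) (hy : F.Irr y) (hxy : F.B x y ≠ 0) (k : ℕ) :
    (∃ j ≤ k, y = F.part (F.nb x j) y) ∨
      k + 1 ≤ (open Classical in ((F.φ y).support.filter (· ∈ F.nb x k)).card) := by
  classical
  induction k with
  | zero =>
    right
    rw [zero_add, Nat.one_le_iff_ne_zero, ← Nat.pos_iff_ne_zero, Finset.card_pos]
    have h1 := hxy
    rw [F.recon y, F.sum_right] at h1
    obtain ⟨i, hi, hij⟩ := Finset.exists_ne_zero_of_sum_ne_zero h1
    rw [F.zsmul_right] at hij
    refine ⟨i, Finset.mem_filter.2 ⟨hi, ?_⟩⟩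
    rw [F.nb_zero, Set.Finite.mem_toFinset]
    exact right_ne_zero_of_mul hij
  | succ k ih =>
    rcases ih with ⟨j, hj, hyj⟩ | ih
    · exact Or.inl ⟨j, hj.trans (Nat.le_succ k), hyj⟩
    by_cases hyk : y = F.part (F.nb x k) y
    · exact Or.inl ⟨k, Nat.le_succ k, hyk⟩
    right
    set z := F.part (F.nb x k) y with hz
    set w := ∑ i ∈ (F.φ y).support with i ∉ F.nb x k, F.φ y i • F.f i with hw
    have hzw : y = z + w := by
      conv_lhs => rw [F.recon y]
      rw [hz, hw]
      unfold part
      exact (Finset.sum_filter_add_sum_filter_not _ _ _).symm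
    have hxw : F.B x w = 0 := by
      rw [hw, F.sum_right]
      refine Finset.sum_eq_zero fun i hi => ?_
      rw [F.zsmul_right]
      have h2 : i ∉ F.nb x 0 := fun h => (Finset.mem_filter.1 hi).2 (F.nb_zero_subset x k h)
      rw [F.nb_zero, Set.Finite.mem_toFinset, Set.mem_ofPred_eq, not_not] at h2
      rw [h2, mul_zero]
    have hz0 : z ≠ 0 := by
      intro h
      apply hxy
      rw [hzw, F.add_right, hxw, h, F.zero_right, add_zero]
    have hw0 : w ≠ 0 := by
      intro h
      rw [h, add_zero] at hzw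
      exact hyk hzw
    have hBzw : F.B z w ≠ 0 := by
      intro h
      rcases hy.2 z w hzw h with h | h
      · exact hz0 h
      · exact hw0 h
    rw [hw, F.sum_right] at hBzw
    obtain ⟨i, hi, hij⟩ := Finset.exists_ne_zero_of_sum_ne_zero hBzw
    rw [F.zsmul_right] at hij
    have h3 := right_ne_zero_of_mul hij
    rw [hz] at h3
    unfold part at h3
    rw [F.sum_left] at h3
    obtain ⟨j, hj, hji⟩ := Finset.exists_ne_zero_of_sum_ne_zero h3
    rw [F.zsmul_left] at hji
    have h4 := F.nb_closed x k (Finset.mem_filter.1 hj).2 (right_ne_zero_of_mul hji)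
    have h5 : ((F.φ y).support.filter (· ∈ F.nb x k)) ⊂
        ((F.φ y).support.filter (· ∈ F.nb x (k + 1))) := by
      rw [Finset.ssubset_iff_of_subset]
      · exact ⟨i, Finset.mem_filter.2 ⟨(Finset.mem_filter.1 hi).1, h4⟩, fun h =>
          (Finset.mem_filter.1 hi).2 (Finset.mem_filter.1 h).2⟩
      · intro a ha
        rw [Finset.mem_filter] at ha ⊢
        exact ⟨ha.1, F.nb_mono x k ha.2⟩
    have h6 := Finset.card_lt_card h5
    omega

/-- the combinations of the `f i`, `i ∈ S`, with coefficients of absolute value at most `M` -/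
theorem finite_comb (S : Finset I) (M : ℤ) :
    {y : L | ∃ c : I → ℤ, (∀ i, |c i| ≤ M) ∧ y = ∑ i ∈ S, c i • F.f i}.Finite := by
  classical
  induction S using Finset.induction_on with
  | empty =>
    refine (Set.finite_singleton (0 : L)).subset ?_
    rintro y ⟨c, -, rfl⟩
    simp
  | insert a S ha ih =>
    have h1 : ((fun n : ℤ => n • F.f a) '' Set.Icc (-M) M).Finite :=
      (Set.finite_Icc _ _).image _
    refine (h1.add ih).subset ?_
    rintro y ⟨c, hc, rfl⟩
    rw [Finset.sum_insert ha]
    exact Set.add_mem_add ⟨c a, abs_le.1 (hc a), rfl⟩ ⟨c, hc, rfl⟩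

/-- Step 1: there are only finitely many irreducible vectors of norm at most `m` which are not
orthogonal to `x`. -/
theorem finite_irr (x : L) (m : ℤ) : {y | F.Irr y ∧ F.B y y ≤ m ∧ F.B x y ≠ 0}.Finite := by
  classical
  obtain ⟨N, hN⟩ : ∃ N : ℕ, (F.C : ℤ) * m ≤ N := ⟨(F.C * m).toNat, Int.self_le_toNat _⟩
  have h1 : {y | F.Irr y ∧ F.B y y ≤ m ∧ F.B x y ≠ 0} ⊆ ⋃ j ∈ Set.Iic N,
      {y : L | ∃ c : I → ℤ, (∀ i, |c i| ≤ (N : ℤ)) ∧ y = ∑ i ∈ F.nb x j, c i • F.f i} := by
    rintro y ⟨hy, hm, hxy⟩
    have hS : ∑ i ∈ (F.φ y).support, (F.φ y i) ^ 2 ≤ N :=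
      (F.coer y).trans ((mul_le_mul_of_nonneg_left hm (by positivity)).trans hN)
    have hcard : ((F.φ y).support.card : ℤ) ≤ N := by
      refine le_trans ?_ hS
      rw [Finset.card_eq_sum_ones, Nat.cast_sum]
      refine Finset.sum_le_sum fun i hi => ?_
      have h2 : F.φ y i ≠ 0 := Finsupp.mem_support_iff.1 hi
      have h3 : 0 < (F.φ y i) ^ 2 := by positivity
      push_cast
      omega
    have hco : ∀ i, |F.φ y i| ≤ (N : ℤ) := by
      intro i
      by_cases hi : i ∈ (F.φ y).support
      · have h2 : (F.φ y i) ^ 2 ≤ N :=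
          (Finset.single_le_sum (f := fun i => (F.φ y i) ^ 2) (fun j _ => sq_nonneg _) hi).trans hS
        have h3 : |F.φ y i| ≤ (F.φ y i) ^ 2 := by
          rw [← sq_abs]
          have : 0 ≤ |F.φ y i| := abs_nonneg _
          rcases this.eq_or_lt with h | h
          · rw [← h]; norm_num
          · nlinarith
        exact h3.trans h2
      · rw [Finsupp.notMem_support_iff.1 hi]
        simp
    rcases F.key x y hy hxy N with ⟨j, hj, hyj⟩ | h
    · refine Set.mem_biUnion (show j ∈ Set.Iic N from hj) ?_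
      refine ⟨fun i => F.φ y i, hco, ?_⟩
      refine hyj.trans ?_
      unfold part
      have h5 : (F.φ y).support.filter (· ∈ F.nb x j) ⊆ F.nb x j := fun i hi =>
        (Finset.mem_filter.1 hi).2
      refine (Finset.sum_subset h5 fun i hi hi2 => ?_)
      have h6 : i ∉ (F.φ y).support := fun h => hi2 (Finset.mem_filter.2 ⟨h, hi⟩)
      rw [Finsupp.notMem_support_iff.1 h6, zero_smul]
    · exfalso
      have h7 : ((F.φ y).support.filter (· ∈ F.nb x N)).card ≤ (F.φ y).support.card :=
        Finset.card_filter_le _ _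
      have h8 : ((N : ℤ) + 1) ≤ (F.φ y).support.card := by exact_mod_cast h.trans h7
      omega
  exact (Set.Finite.biUnion (Set.finite_Iic N) fun j _ => F.finite_comb _ _).subset h1

end Frame

end Pool.Agent.V8H85.RF
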