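import Pool.Agent.V8H85.RF.ToFrame

set_option autoImplicit false

/-! Positive definite nonsingular forms over the integral group ring of a torsion-free group which
are generated by vectors of norm at most two are induced from forms over the integers. -/

namespace Pool.Agent.V8H85.RF

open MonoidAlgebra

namespace HermForm

variable {Γ : Type*} [Group Γ] {P : Type*} [AddCommGroup P] [Module (MonoidAlgebra ℤ Γ) P]
  {h : HermForm Γ P} {I : Type*} {F : Frame P I}

theorem act_ne_zero {g : Γ} {x : P} (hx : x ≠ 0) : act g x ≠ 0 := by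
  intro h0
  apply hx
  rw [← act_inv_act g x, h0, act_zero]

theorem irr_act (hF : F.B = h.B) (g : Γ) {x : P} (hx : F.Irr x) : F.Irr (act g x) := by
  refine ⟨act_ne_zero hx.1, fun a b hab h0 => ?_⟩
  have h1 : x = act g⁻¹ a + act g⁻¹ b := by rw [← act_add, ← hab, act_inv_act]
  have h2 : F.B (act g⁻¹ a) (act g⁻¹ b) = 0 := by rw [hF, h.B_act, ← hF]; exact h0
  rcases hx.2 _ _ h1 h2 with h3 | h3
  · left
    rw [← act_act_inv g a, h3, act_zero]
  · right
    rw [← act_act_inv g b, h3, act_zero]

theorem isRoot_act (hF : F.B = h.B) (g : Γ) {x : P} (hx : F.IsRoot x) : F.IsRoot (act g x) :=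
  ⟨irr_act hF g hx.1, by rw [hF, h.B_act, ← hF]; exact hx.2⟩

theorem rel_act (hF : F.B = h.B) (g : Γ) {x y : P} (hxy : F.Rel x y) :
    F.Rel (act g x) (act g y) := by
  obtain ⟨v, hv, h1, h2⟩ := hxy
  refine ⟨act g v, isRoot_act hF g hv, ?_, ?_⟩
  · rw [hF, h.B_act, ← hF]; exact h1
  · rw [hF, h.B_act, ← hF]; exact h2

/-- the action on the components -/
noncomputable def actC (hF : F.B = h.B) (g : Γ) (c : F.Comp) : F.Comp :=
  Quotient.map' (s₁ := F.setoid) (s₂ := F.setoid) (fun r => ⟨act g r.1, isRoot_act hF g r.2⟩)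
    (fun _ _ hab => rel_act hF g hab) c

theorem actC_cl (hF : F.B = h.B) (g : Γ) (r : P) (hr : F.IsRoot r) :
    actC hF g (F.cl r hr) = F.cl (act g r) (isRoot_act hF g hr) := rfl

theorem cl_congr {r u : P} (hru : r = u) (hr : F.IsRoot r) (hu : F.IsRoot u) :
    F.cl r hr = F.cl u hu := by
  subst hru; rfl

theorem actC_mul (hF : F.B = h.B) (g k : Γ) (c : F.Comp) :
    actC hF (g * k) c = actC hF g (actC hF k c) := by
  obtain ⟨⟨r, hr⟩, rfl⟩ := Quotient.exists_rep c
  exact cl_congr (act_mul g k r) _ _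

theorem actC_one (hF : F.B = h.B) (c : F.Comp) : actC hF 1 c = c := by
  obtain ⟨⟨r, hr⟩, rfl⟩ := Quotient.exists_rep c
  exact cl_congr (act_one r) _ _

theorem rts_act (hF : F.B = h.B) (g : Γ) {c : F.Comp} {r : P} (hr : r ∈ F.rts c) :
    act g r ∈ F.rts (actC hF g c) := by
  obtain ⟨hr, rfl⟩ := hr
  exact ⟨isRoot_act hF g hr, rfl⟩

theorem K_act (hF : F.B = h.B) (g : Γ) {c : F.Comp} {x : P} (hx : x ∈ F.K c) :
    act g x ∈ F.K (actC hF g c) := by
  refine AddSubgroup.closure_induction (p := fun x _ => act g x ∈ F.K (actC hF g c))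
    ?_ ?_ ?_ ?_ hx
  · intro r hr; exact AddSubgroup.subset_closure (rts_act hF g hr)
  · rw [act_zero]; exact zero_mem _
  · intro a b _ _ ha hb; rw [act_add]; exact add_mem ha hb
  · intro a _ ha; rw [act_neg]; exact neg_mem ha

/-- The stabilizers of the components are finite; so the action is free for a torsion-free group. -/
theorem free (hF : F.B = h.B) (htf : ∀ g : Γ, ∀ k : ℕ, 0 < k → g ^ k = 1 → g = 1) {g : Γ}
    {c : F.Comp} (hg : actC hF g c = c) : g = 1 := by
  obtain ⟨r, hr⟩ := F.rts_nonempty c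
  have hpow : ∀ k : ℕ, act (g ^ k) r ∈ F.rts c := by
    intro k
    induction k with
    | zero => rw [pow_zero, act_one]; exact hr
    | succ k ih =>
      rw [pow_succ', act_mul]
      have := rts_act hF g ih
      rwa [hg] at this
  obtain ⟨a, b, hab, heq⟩ : ∃ a b : ℕ, a < b ∧ act (g ^ a) r = act (g ^ b) r := by
    have h1 : ¬ Function.Injective (fun k : ℕ => (⟨act (g ^ k) r, hpow k⟩ : F.rts c)) := by
      have := (F.rts_finite c).to_subtype
      exact not_injective_infinite_finite _
    rw [Function.Injective] at h1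
    push Not at h1
    obtain ⟨a, b, h2, h3⟩ := h1
    rcases lt_or_gt_of_ne h3 with h4 | h4
    · exact ⟨a, b, h4, congrArg Subtype.val h2⟩
    · exact ⟨b, a, h4, (congrArg Subtype.val h2).symm⟩
  -- `t` is a positive power of `g` which fixes `r`
  set t := g ^ (b - a) with ht
  have htr : act t r = r := by
    have h1 : act (g ^ a) (act t r) = act (g ^ a) r := by
      rw [← act_mul, ht, ← pow_add, heq]
      congr 2
      omega
    rw [← act_inv_act (g ^ a) (act t r), h1, act_inv_act]
  by_contra hne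
  have hinj : Function.Injective (fun k : ℕ => t ^ k) := by
    intro k l hkl
    by_contra hkl2
    have key : ∀ k l : ℕ, k < l → t ^ k = t ^ l → False := by
      intro k l hlt he
      have h3 : t ^ (l - k) = 1 := by
        have h4 : t ^ k * t ^ (l - k) = t ^ k * 1 := by
          rw [← pow_add, mul_one, he]
          congr 1
          omega
        exact mul_left_cancel h4
      have h5 := htf t (l - k) (by omega) h3
      exact hne (htf g (b - a) (by omega) (by rw [← ht]; exact h5))
    rcases lt_or_gt_of_ne hkl2 with h3 | h3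
    · exact key k l h3 hkl
    · exact key l k h3 hkl.symm
  have htk : ∀ k : ℕ, act (t ^ k) r = r := by
    intro k
    induction k with
    | zero => rw [pow_zero, act_one]
    | succ k ih => rw [pow_succ, act_mul, htr, ih]
  have hfin := h.finite_lf r r
  have hsub : Set.range (fun k : ℕ => t ^ k) ⊆ {g : Γ | h.B r (act g r) ≠ 0} := by
    rintro _ ⟨k, rfl⟩
    rw [Set.mem_ofPred_eq, htk k, ← hF]
    obtain ⟨hr', -⟩ := hr
    exact (F.pos r hr'.ne_zero).ne'
  exact Set.infinite_range_of_injective hinj (hfin.subset hsub)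

/-- The sublattices of the components are free. -/
theorem exists_basis (hF : F.B = h.B) (c : F.Comp) :
    ∃ (n : ℕ) (b : Fin n → P), (∀ i, b i ∈ F.K c) ∧
      (∀ x ∈ F.K c, ∃ a : Fin n → ℤ, x = ∑ i, a i • b i) ∧
      (∀ a : Fin n → ℤ, ∑ i, a i • b i = 0 → a = 0) := by
  set M : Submodule ℤ P := AddSubgroup.toIntSubmodule (F.K c) with hM
  have : Module.Finite ℤ M := by
    rw [Module.Finite.iff_fg]
    refine ⟨(F.rts_finite c).toFinset, ?_⟩
    rw [Set.Finite.coe_toFinset, hM]
    unfold Frame.K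
    apply le_antisymm
    · rw [Submodule.span_le]
      exact AddSubgroup.subset_closure
    · intro x hx
      have hx' : x ∈ AddSubgroup.closure (F.rts c) := hx
      refine AddSubgroup.closure_induction (p := fun x _ => x ∈ Submodule.span ℤ (F.rts c))
        ?_ ?_ ?_ ?_ hx'
      · intro r hr; exact Submodule.subset_span hr
      · exact zero_mem _
      · intro a b _ _ ha hb; exact add_mem ha hb
      · intro a _ ha; exact neg_mem ha
  have : Module.IsTorsionFree ℤ M := by
    refine ⟨fun r hr x y hxy => ?_⟩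
    have hr0 : r ≠ 0 := hr.ne_zero
    have h1 : r • (x.1 - y.1) = 0 := by
      rw [smul_sub]
      exact sub_eq_zero.2 (congrArg Subtype.val hxy)
    have h2 : F.B (x.1 - y.1) (x.1 - y.1) = 0 := by
      have h3 : F.B (r • (x.1 - y.1)) (r • (x.1 - y.1)) = 0 := by rw [h1, F.zero_left]
      rw [F.zsmul_left, F.zsmul_right] at h3
      rcases mul_eq_zero.1 h3 with h4 | h4
      · exact absurd h4 hr0
      · rcases mul_eq_zero.1 h4 with h5 | h5
        · exact absurd h5 hr0
        · exact h5
    exact Subtype.ext (sub_eq_zero.1 (F.eq_zero_of _ h2))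
  obtain ⟨n, b⟩ := Module.basisOfFiniteTypeTorsionFree' (R := ℤ) (M := M)
  refine ⟨n, fun i => (b i).1, fun i => (b i).2, fun x hx => ?_, fun a ha => ?_⟩
  · refine ⟨fun i => b.repr ⟨x, hx⟩ i, ?_⟩
    have h1 := b.sum_repr (⟨x, hx⟩ : M)
    have h2 : ((∑ i, b.repr (⟨x, hx⟩ : M) i • b i : M) : P) = x := by rw [h1]
    refine h2.symm.trans ?_
    rw [AddSubmonoidClass.coe_finsetSum]
    rfl
  · have h1 : ∑ i, a i • b i = 0 := by
      apply Subtype.ext
      simpa using ha
    ext i
    exact (Fintype.linearIndependent_iff.1 b.linearIndependent) a h1 i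

/-- the orbit relation on the components -/
noncomputable def orb (hF : F.B = h.B) : Setoid F.Comp where
  r c d := ∃ g : Γ, actC hF g c = d
  iseqv := ⟨fun c => ⟨1, actC_one hF c⟩, fun {c d} ⟨g, hg⟩ => ⟨g⁻¹, by
    rw [← hg, ← actC_mul, inv_mul_cancel, actC_one]⟩, fun {c d e} ⟨g, hg⟩ ⟨k, hk⟩ => ⟨k * g, by
    rw [actC_mul, hg, hk]⟩⟩

/-- the representative of the orbit of a component -/
noncomputable def rep (hF : F.B = h.B) (t : Quotient (orb hF)) : F.Comp := Quotient.out t

theorem rep_inj (hF : F.B = h.B) (htf : ∀ g : Γ, ∀ k : ℕ, 0 < k → g ^ k = 1 → g = 1)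
    {t u : Quotient (orb hF)} {g k : Γ} (hgk : actC hF g (rep hF t) = actC hF k (rep hF u)) :
    t = u ∧ g = k := by
  have h1 : actC hF (k⁻¹ * g) (rep hF t) = rep hF u := by
    rw [actC_mul, hgk, ← actC_mul, inv_mul_cancel, actC_one]
  have h2 : t = u := by
    rw [← Quotient.out_eq t, ← Quotient.out_eq u]
    exact Quotient.sound (s := orb hF) ⟨k⁻¹ * g, h1⟩
  subst h2
  have h3 := free hF htf h1
  exact ⟨rfl, (inv_mul_eq_one.1 h3).symm⟩

theorem exists_rep (hF : F.B = h.B) (c : F.Comp) :
    ∃ (t : Quotient (orb hF)) (g : Γ), actC hF g (rep hF t) = c := by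
  refine ⟨Quotient.mk (orb hF) c, ?_⟩
  have h1 : (orb hF).r (rep hF (Quotient.mk (orb hF) c)) c :=
    Quotient.exact (s := orb hF) (Quotient.out_eq (Quotient.mk (orb hF) c))
  exact h1

theorem closure_eq_top {m : ℤ} (hgen : h.GeneratedBy m) :
    AddSubgroup.closure {x | h.B x x ≤ m} = ⊤ := by
  set S : Set P := {x | h.B x x ≤ m} with hS
  have hstab : ∀ (g : Γ), ∀ x ∈ AddSubgroup.closure S, act g x ∈ AddSubgroup.closure S := by
    intro g x hx
    refine AddSubgroup.closure_induction (p := fun x _ => act g x ∈ AddSubgroup.closure S)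
      ?_ ?_ ?_ ?_ hx
    · intro r hr
      refine AddSubgroup.subset_closure ?_
      rw [hS, Set.mem_ofPred_eq, h.B_act]
      exact hr
    · rw [act_zero]; exact zero_mem _
    · intro a b _ _ ha hb; rw [act_add]; exact add_mem ha hb
    · intro a _ ha; rw [act_neg]; exact neg_mem ha
  let N : Submodule (MonoidAlgebra ℤ Γ) P :=
    { carrier := AddSubgroup.closure S
      add_mem' := fun ha hb => add_mem ha hb
      zero_mem' := zero_mem _
      smul_mem' := fun a x hx => by
        rw [smul_eq_sum a x a.coeff.support (Finset.Subset.refl _)]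
        exact sum_mem fun g _ => zsmul_mem (hstab g x hx) _ }
  have h1 : Submodule.span (MonoidAlgebra ℤ Γ) S ≤ N :=
    Submodule.span_le.2 AddSubgroup.subset_closure
  have h2 : Submodule.span (MonoidAlgebra ℤ Γ) S = ⊤ := hgen
  rw [h2] at h1
  rw [eq_top_iff]
  intro x _
  exact h1 Submodule.mem_top

section main

variable [Module.Finite (MonoidAlgebra ℤ Γ) P]

theorem main_of_frame (hF : F.B = h.B) (htf : ∀ g : Γ, ∀ k : ℕ, 0 < k → g ^ k = 1 → g = 1)
    (hgen : h.GeneratedBy 2) : h.Extended := by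
  classical
  choose n b hbK hbspan hbind using fun c : F.Comp => exists_basis hF c
  set T := Quotient (orb hF) with hT
  let ι := Σ t : T, Fin (n (rep hF t))
  let β : ι → P := fun a => b (rep hF a.1) a.2
  -- independence
  have key : ∀ (T' : Finset T) (x : ι → MonoidAlgebra ℤ Γ),
      ∑ t ∈ T', ∑ j, x ⟨t, j⟩ • β ⟨t, j⟩ = 0 → ∀ t ∈ T', ∀ j, x ⟨t, j⟩ = 0 := by
    intro T' x hx
    set U : Finset Γ := T'.biUnion fun t => Finset.univ.biUnion fun j =>
      (x ⟨t, j⟩).coeff.support with hU
    have hUs : ∀ t ∈ T', ∀ j, (x ⟨t, j⟩).coeff.support ⊆ U := by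
      intro t ht j g hg
      rw [hU]
      exact Finset.mem_biUnion.2 ⟨t, ht, Finset.mem_biUnion.2 ⟨j, Finset.mem_univ _, hg⟩⟩
    let y : T × Γ → P := fun p => ∑ j, (x ⟨p.1, j⟩).coeff p.2 • act p.2 (β ⟨p.1, j⟩)
    have hy : ∑ p ∈ T' ×ˢ U, y p = 0 := by
      rw [← hx, Finset.sum_product]
      refine Finset.sum_congr rfl fun t ht => ?_
      change ∑ g ∈ U, ∑ j, (x ⟨t, j⟩).coeff g • act g (β ⟨t, j⟩) = _
      rw [Finset.sum_comm]
      refine Finset.sum_congr rfl fun j _ => ?_
      exact (smul_eq_sum _ _ _ (hUs t ht j)).symm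
    have hyK : ∀ p ∈ T' ×ˢ U, y p ∈ F.K (actC hF p.2 (rep hF p.1)) := by
      intro p _
      exact sum_mem fun j _ => zsmul_mem (K_act hF p.2 (hbK _ _)) _
    have hinj : Set.InjOn (fun p : T × Γ => actC hF p.2 (rep hF p.1)) ↑(T' ×ˢ U) := by
      rintro ⟨t, g⟩ _ ⟨u, k⟩ _ hpq
      obtain ⟨h1, h2⟩ := rep_inj hF htf hpq
      exact Prod.ext h1 h2
    have hy0 := F.eq_zero_of_sum _ _ hinj y hyK hy
    intro t ht j
    apply MonoidAlgebra.ext
    ext g
    by_cases hg : g ∈ U
    · have h1 := hy0 (t, g) (Finset.mem_product.2 ⟨ht, hg⟩)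
      have h2 : ∑ j, (x ⟨t, j⟩).coeff g • β ⟨t, j⟩ = 0 := by
        have h3 : act g (∑ j, (x ⟨t, j⟩).coeff g • β ⟨t, j⟩) = 0 := by
          rw [act_sum]
          rw [← h1]
          refine Finset.sum_congr rfl fun j _ => ?_
          rw [act_zsmul]
        rw [← act_inv_act g (∑ j, (x ⟨t, j⟩).coeff g • β ⟨t, j⟩), h3, act_zero]
      have h4 := hbind (rep hF t) (fun j => (x ⟨t, j⟩).coeff g) h2
      exact congrFun h4 j
    · by_contra hne
      exact hg (hUs t ht j (Finsupp.mem_support_iff.2 hne))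
  have hli : LinearIndependent (MonoidAlgebra ℤ Γ) β := by
    rw [linearIndependent_iff']
    intro s x hx
    set T' : Finset T := s.image Sigma.fst with hT'
    let x' : ι → MonoidAlgebra ℤ Γ := fun a => if a ∈ s then x a else 0
    have h1 : ∑ t ∈ T', ∑ j, x' ⟨t, j⟩ • β ⟨t, j⟩ = 0 := by
      rw [Finset.sum_sigma' T' (fun t => (Finset.univ : Finset (Fin (n (rep hF t)))))
        (fun t j => x' ⟨t, j⟩ • β ⟨t, j⟩)]
      rw [← hx]
      symm
      have h2 : s ⊆ T'.sigma fun t => (Finset.univ : Finset (Fin (n (rep hF t)))) := by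
        intro a ha
        rw [Finset.mem_sigma]
        exact ⟨Finset.mem_image_of_mem _ ha, Finset.mem_univ _⟩
      rw [← Finset.sum_subset h2]
      · refine Finset.sum_congr rfl fun a ha => ?_
        simp only [x', Sigma.eta]
        rw [if_pos ha]
      · intro a _ ha
        simp only [x', Sigma.eta]
        rw [if_neg ha, zero_smul]
    intro a ha
    have h2 := key T' x' h1 a.1 (Finset.mem_image_of_mem _ ha) a.2
    simp only [x', Sigma.eta] at h2
    rwa [if_pos ha] at h2
  have hsp : ⊤ ≤ Submodule.span (MonoidAlgebra ℤ Γ) (Set.range β) := by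
    set N := Submodule.span (MonoidAlgebra ℤ Γ) (Set.range β) with hN
    have h1 : ∀ c, F.K c ≤ N.toAddSubgroup := by
      intro c x hx
      obtain ⟨t, g, hgt⟩ := exists_rep hF c
      have h2 : act g⁻¹ x ∈ F.K (rep hF t) := by
        have := K_act hF g⁻¹ hx
        rwa [← hgt, ← actC_mul, inv_mul_cancel, actC_one] at this
      obtain ⟨a, ha⟩ := hbspan _ _ h2
      have h3 : act g⁻¹ x ∈ N := by
        rw [ha]
        exact sum_mem fun i _ => zsmul_mem (Submodule.subset_span
          (Set.mem_range_self (⟨t, i⟩ : ι))) _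
      have h4 : act g (act g⁻¹ x) ∈ N := N.smul_mem _ h3
      rwa [act_act_inv] at h4
    have h2 := F.iSup_K (by rw [hF]; exact closure_eq_top hgen)
    intro x _
    have h3 : x ∈ ⨆ c, F.K c := by rw [h2]; exact AddSubgroup.mem_top x
    exact (iSup_le h1) h3
  let bb : Module.Basis ι (MonoidAlgebra ℤ Γ) P := Module.Basis.mk hli hsp
  have : Finite ι := Module.Finite.finite_basis bb
  have := Fintype.ofFinite ι
  refine ⟨Fintype.card ι, bb.reindex (Fintype.equivFin ι), fun i j =>
    h.B (β ((Fintype.equivFin ι).symm i)) (β ((Fintype.equivFin ι).symm j)), fun i j => ?_⟩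
  rw [Module.Basis.reindex_apply, Module.Basis.reindex_apply, Module.Basis.mk_apply,
    Module.Basis.mk_apply]
  set a := (Fintype.equivFin ι).symm i
  set c := (Fintype.equivFin ι).symm j
  apply MonoidAlgebra.ext
  ext g
  rw [h.coeff_val, coeff_single, Finsupp.single_apply]
  split_ifs with hg
  · rw [← hg, act_one]
  · rw [← hF]
    refine F.B_K (c := rep hF a.1) (d := actC hF g (rep hF c.1)) ?_ (hbK _ _)
      (K_act hF g (hbK _ _))
    intro he
    have h1 : actC hF 1 (rep hF a.1) = actC hF g (rep hF c.1) := by rw [actC_one]; exact he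
    exact hg (rep_inj hF htf h1).2

end main

section main2

variable [Module.Finite (MonoidAlgebra ℤ Γ) P] [Module.Projective (MonoidAlgebra ℤ Γ) P]

/-- Root forms over the integral group ring of a torsion-free group are induced from the
integers. -/
theorem main (h : HermForm Γ P) (htf : ∀ g : Γ, ∀ k : ℕ, 0 < k → g ^ k = 1 → g = 1)
    (hns : h.Nonsingular) (hp : h.PosDef) (hgen : h.GeneratedBy 2) : h.Extended := by
  obtain ⟨n, F, hF⟩ := exists_frame hns hp
  exact main_of_frame hF htf hgen

end main2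

end HermForm

end Pool.Agent.V8H85.RF
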