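import Pool.Agent.V8H85.RF.Herm

set_option autoImplicit false

/-! The frame of a positive definite nonsingular form on a finitely generated projective module. -/

namespace Pool.Agent.V8H85.RF

open MonoidAlgebra

namespace HermForm

variable {Γ : Type*} [Group Γ] {P : Type*} [AddCommGroup P] [Module (MonoidAlgebra ℤ Γ) P]
  (h : HermForm Γ P)

/-- the form as a biadditive map -/
noncomputable def bil : P →+ P →+ ℤ :=
  AddMonoidHom.mk' (fun x => AddMonoidHom.mk' (fun y => h.B x y) (fun y z => by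
    rw [h.B_symm, h.B_add, h.B_symm y, h.B_symm z])) (fun x y => by
    ext z
    exact h.B_add x y z)

@[simp] theorem bil_apply (x y : P) : h.bil x y = h.B x y := rfl

theorem B_add_right (x y z : P) : h.B x (y + z) = h.B x y + h.B x z := (h.bil x).map_add y z
theorem B_zero_right (x : P) : h.B x 0 = 0 := (h.bil x).map_zero
theorem B_zero_left (x : P) : h.B 0 x = 0 := by rw [h.B_symm, h.B_zero_right]
theorem B_neg_right (x y : P) : h.B x (-y) = -h.B x y := (h.bil x).map_neg y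
theorem B_neg_left (x y : P) : h.B (-x) y = -h.B x y := by rw [h.B_symm, h.B_neg_right, h.B_symm]
theorem B_sub_right (x y z : P) : h.B x (y - z) = h.B x y - h.B x z := (h.bil x).map_sub y z
theorem B_sub_left (x y z : P) : h.B (x - y) z = h.B x z - h.B y z := by
  rw [sub_eq_add_neg, h.B_add, h.B_neg_left]; ring
theorem B_zsmul_right (n : ℤ) (x y : P) : h.B x (n • y) = n * h.B x y := by
  rw [← smul_eq_mul]
  exact map_zsmul (h.bil x) n y
theorem B_zsmul_left (n : ℤ) (x y : P) : h.B (n • x) y = n * h.B x y := by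
  rw [h.B_symm, h.B_zsmul_right, h.B_symm]
theorem B_sum_right {α : Type*} (s : Finset α) (x : P) (g : α → P) :
    h.B x (∑ i ∈ s, g i) = ∑ i ∈ s, h.B x (g i) := map_sum (h.bil x) g s
theorem B_sum_left {α : Type*} (s : Finset α) (x : P) (g : α → P) :
    h.B (∑ i ∈ s, g i) x = ∑ i ∈ s, h.B (g i) x := by
  rw [h.B_symm, h.B_sum_right]
  exact Finset.sum_congr rfl fun i _ => h.B_symm _ _

variable {h}

theorem PosDef.nonneg (hp : h.PosDef) (x : P) : 0 ≤ h.B x x := by
  by_cases h1 : x = 0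
  · rw [h1, h.B_zero_left]
  · exact (hp x h1).le

theorem PosDef.cs (hp : h.PosDef) (x y : P) : h.B x y ^ 2 ≤ h.B x x * h.B y y := by
  by_cases hy : y = 0
  · rw [hy, h.B_zero_right, h.B_zero_left]; simp
  have h1 : 0 < h.B y y := hp y hy
  have h2 := hp.nonneg (h.B y y • x - h.B x y • y)
  rw [h.B_sub_left, h.B_sub_right, h.B_sub_right] at h2
  simp only [h.B_zsmul_left, h.B_zsmul_right] at h2
  rw [h.B_symm y x] at h2
  have h3 : 0 ≤ h.B y y * (h.B x x * h.B y y - h.B x y ^ 2) := by nlinarith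
  have h4 := (mul_nonneg_iff_of_pos_left h1).1 h3
  linarith

variable (h)

/-- the coefficients of `y` with respect to the frame -/
noncomputable def phi {n : ℕ} (z : Fin n → P) (y : P) : (Fin n × Γ) →₀ ℤ :=
  Finsupp.ofSupportFinite (fun p => (h.val y (z p.1)).coeff p.2) (by
    classical
    refine (Finset.finite_toSet (Finset.univ ×ˢ
      (Finset.univ.biUnion fun i => (h.val y (z i)).coeff.support))).subset ?_
    rintro ⟨i, g⟩ hp
    rw [Finset.mem_coe, Finset.mem_product]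
    exact ⟨Finset.mem_univ _, Finset.mem_biUnion.2 ⟨i, Finset.mem_univ _,
      Finsupp.mem_support_iff.2 hp⟩⟩)

theorem phi_apply {n : ℕ} (z : Fin n → P) (y : P) (i : Fin n) (g : Γ) :
    h.phi z y (i, g) = (h.val y (z i)).coeff g := rfl

theorem phi_eq {n : ℕ} (z : Fin n → P) (y : P) (p : Fin n × Γ) :
    h.phi z y p = h.B y (act p.2 (z p.1)) := h.coeff_val _ _ _

open Classical in
theorem sum_phi {M : Type*} [AddCommMonoid M] {n : ℕ} (z : Fin n → P) (y : P)
    (G : Fin n × Γ → M) (hG : ∀ p, h.phi z y p = 0 → G p = 0) :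
    ∑ p ∈ (h.phi z y).support, G p =
      ∑ i, ∑ g ∈ (Finset.univ.biUnion fun i => (h.val y (z i)).coeff.support), G (i, g) := by
  rw [← Finset.sum_product']
  refine Finset.sum_subset ?_ fun p _ hp => hG p (Finsupp.notMem_support_iff.1 hp)
  rintro ⟨i, g⟩ hp
  rw [Finset.mem_product]
  have hp' : h.phi z y (i, g) ≠ 0 := Finsupp.mem_support_iff.1 hp
  exact ⟨Finset.mem_univ _, Finset.mem_biUnion.2 ⟨i, Finset.mem_univ _,
    Finsupp.mem_support_iff.2 hp'⟩⟩

theorem recon {n : ℕ} {x z : Fin n → P} (hxz : ∀ y : P, y = ∑ i, h.val y (z i) • x i) (y : P) :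
    y = ∑ p ∈ (h.phi z y).support, h.phi z y p • act p.2 (x p.1) := by
  classical
  rw [h.sum_phi z y (fun p => h.phi z y p • act p.2 (x p.1)) fun p hp => by rw [hp, zero_smul]]
  conv_lhs => rw [hxz y]
  refine Finset.sum_congr rfl fun i _ => ?_
  exact smul_eq_sum _ _ _ (Finset.subset_biUnion_of_mem
    (fun i => (h.val y (z i)).coeff.support) (Finset.mem_univ i))

theorem finite_lf (x y : P) : {g : Γ | h.B x (act g y) ≠ 0}.Finite := by
  refine (Finset.finite_toSet (h.val x y).coeff.support).subset fun g hg => ?_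
  rw [Finset.mem_coe, Finsupp.mem_support_iff, h.coeff_val]
  exact hg

theorem lf {n : ℕ} (x : Fin n → P) (p : Fin n × Γ) :
    {q : Fin n × Γ | h.B (act p.2 (x p.1)) (act q.2 (x q.1)) ≠ 0}.Finite := by
  have h1 : {q : Fin n × Γ | h.B (act p.2 (x p.1)) (act q.2 (x q.1)) ≠ 0} ⊆
      ⋃ j : Fin n, (fun g : Γ => (j, g)) '' {g : Γ | h.B (act p.2 (x p.1)) (act g (x j)) ≠ 0} := by
    rintro ⟨j, g⟩ hq
    exact Set.mem_iUnion.2 ⟨j, g, hq, rfl⟩
  exact (Set.finite_iUnion fun j => (h.finite_lf _ _).image _).subset h1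

/-- the sum of the absolute values of the coefficients -/
noncomputable def l1 (a : MonoidAlgebra ℤ Γ) : ℕ := ∑ g ∈ a.coeff.support, (a.coeff g).natAbs

theorem sum_le_l1 (a : MonoidAlgebra ℤ Γ) (g : Γ) (V : Finset Γ) :
    ∑ k ∈ V, |a.coeff (g⁻¹ * k)| ≤ (l1 a : ℤ) := by
  classical
  have h1 : ∑ k ∈ V, |a.coeff (g⁻¹ * k)| = ∑ t ∈ V.image (fun k => g⁻¹ * k), |a.coeff t| := by
    rw [Finset.sum_image]
    exact fun _ _ _ _ h => mul_left_cancel h
  rw [h1]
  unfold l1
  push_cast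
  rw [← Finset.sum_filter_add_sum_filter_not (V.image fun k => g⁻¹ * k) (fun t => a.coeff t ≠ 0)]
  have h2 : ∑ t ∈ V.image (fun k => g⁻¹ * k) with ¬ a.coeff t ≠ 0, |a.coeff t| = 0 := by
    refine Finset.sum_eq_zero fun t ht => ?_
    have := (Finset.mem_filter.1 ht).2
    rw [not_not] at this
    rw [this, abs_zero]
  rw [h2, add_zero]
  refine Finset.sum_le_sum_of_subset_of_nonneg (fun t ht => ?_) fun t _ _ => abs_nonneg _
  exact Finsupp.mem_support_iff.2 (Finset.mem_filter.1 ht).2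

theorem row_le {n : ℕ} (z : Fin n → P) (p : Fin n × Γ) (s : Finset (Fin n × Γ)) :
    ∑ q ∈ s, |h.B (act p.2 (z p.1)) (act q.2 (z q.1))| ≤
      ((∑ i, ∑ j, l1 (h.val (z i) (z j)) : ℕ) : ℤ) := by
  classical
  have h1 : ∑ q ∈ s, |h.B (act p.2 (z p.1)) (act q.2 (z q.1))| ≤
      ∑ q ∈ (Finset.univ : Finset (Fin n)) ×ˢ s.image Prod.snd,
        |h.B (act p.2 (z p.1)) (act q.2 (z q.1))| := by
    refine Finset.sum_le_sum_of_subset_of_nonneg (fun q hq => ?_) fun t _ _ => abs_nonneg _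
    rw [Finset.mem_product]
    exact ⟨Finset.mem_univ _, Finset.mem_image_of_mem _ hq⟩
  refine h1.trans ?_
  rw [Finset.sum_product]
  simp only [h.B_act_act]
  have h2 : ∑ j, ∑ k ∈ s.image Prod.snd, |(h.val (z p.1) (z j)).coeff (p.2⁻¹ * k)| ≤
      ∑ j, (l1 (h.val (z p.1) (z j)) : ℤ) :=
    Finset.sum_le_sum fun j _ => sum_le_l1 _ _ _
  refine h2.trans ?_
  push_cast
  exact Finset.single_le_sum (f := fun i => ∑ j, (l1 (h.val (z i) (z j)) : ℤ))
    (fun i _ => Finset.sum_nonneg fun j _ => Nat.cast_nonneg _) (Finset.mem_univ p.1)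

variable {h}

theorem PosDef.coer (hp : h.PosDef) {n : ℕ} (z : Fin n → P) (y : P) :
    ∑ p ∈ (h.phi z y).support, (h.phi z y p) ^ 2 ≤
      ((∑ i, ∑ j, l1 (h.val (z i) (z j)) : ℕ) : ℤ) * h.B y y := by
  classical
  set s := (h.phi z y).support with hs
  set c := h.phi z y with hc
  set C := ((∑ i, ∑ j, l1 (h.val (z i) (z j)) : ℕ) : ℤ) with hC
  set w := ∑ p ∈ s, c p • act p.2 (z p.1) with hw
  set S := ∑ p ∈ s, (c p) ^ 2 with hS
  have h1 : h.B y w = S := by
    rw [hw, h.B_sum_right, hS]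
    refine Finset.sum_congr rfl fun p _ => ?_
    rw [h.B_zsmul_right, hc, h.phi_eq z y p]
    ring
  have h2 : 2 * h.B w w ≤ 2 * (C * S) := by
    have e1 : h.B w w = ∑ p ∈ s, ∑ q ∈ s,
        c p * c q * h.B (act p.2 (z p.1)) (act q.2 (z q.1)) := by
      rw [hw, h.B_sum_left]
      refine Finset.sum_congr rfl fun p _ => ?_
      rw [h.B_sum_right]
      refine Finset.sum_congr rfl fun q _ => ?_
      rw [h.B_zsmul_left, h.B_zsmul_right]
      ring
    have e2 : ∀ p ∈ s, ∀ q ∈ s, 2 * (c p * c q * h.B (act p.2 (z p.1)) (act q.2 (z q.1))) ≤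
        (c p) ^ 2 * |h.B (act p.2 (z p.1)) (act q.2 (z q.1))| +
        (c q) ^ 2 * |h.B (act q.2 (z q.1)) (act p.2 (z p.1))| := by
      intro p _ q _
      rw [h.B_symm (act q.2 (z q.1)) (act p.2 (z p.1))]
      set b := h.B (act p.2 (z p.1)) (act q.2 (z q.1))
      have a1 : 0 ≤ (|c p| - |c q|) ^ 2 * |b| := by positivity
      have a2 : c p * c q * b ≤ |c p| * |c q| * |b| := by
        rw [← abs_mul, ← abs_mul]; exact le_abs_self _
      have a3 : |c p| ^ 2 = (c p) ^ 2 := sq_abs _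
      have a4 : |c q| ^ 2 = (c q) ^ 2 := sq_abs _
      have a5 : (|c p| - |c q|) ^ 2 * |b| =
          |c p| ^ 2 * |b| + |c q| ^ 2 * |b| - 2 * (|c p| * |c q| * |b|) := by ring
      rw [a3, a4] at a5
      linarith
    have e3 : 2 * h.B w w ≤ ∑ p ∈ s, ∑ q ∈ s,
        ((c p) ^ 2 * |h.B (act p.2 (z p.1)) (act q.2 (z q.1))| +
        (c q) ^ 2 * |h.B (act q.2 (z q.1)) (act p.2 (z p.1))|) := by
      rw [e1, Finset.mul_sum]
      refine Finset.sum_le_sum fun p hp => ?_
      rw [Finset.mul_sum]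
      exact Finset.sum_le_sum fun q hq => e2 p hp q hq
    refine e3.trans ?_
    simp only [Finset.sum_add_distrib]
    have e4 : ∑ p ∈ s, ∑ q ∈ s, (c q) ^ 2 * |h.B (act q.2 (z q.1)) (act p.2 (z p.1))| =
        ∑ p ∈ s, ∑ q ∈ s, (c p) ^ 2 * |h.B (act p.2 (z p.1)) (act q.2 (z q.1))| :=
      Finset.sum_comm
    rw [e4, ← two_mul]
    refine mul_le_mul_of_nonneg_left ?_ (by norm_num)
    rw [hS, Finset.mul_sum]
    refine Finset.sum_le_sum fun p _ => ?_
    rw [← Finset.mul_sum, mul_comm]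
    exact mul_le_mul_of_nonneg_right (h.row_le z p s) (sq_nonneg _)
  have h3 : S ^ 2 ≤ h.B y y * h.B w w := by rw [← h1]; exact hp.cs y w
  have h4 : 0 ≤ S := Finset.sum_nonneg fun p _ => sq_nonneg _
  have h5 : 0 ≤ h.B y y := hp.nonneg y
  rcases h4.eq_or_lt with h6 | h6
  · rw [← h6]
    exact mul_nonneg (by rw [hC]; exact Nat.cast_nonneg _) h5
  · have h7 : S * S ≤ C * h.B y y * S := by
      have h8 : h.B w w ≤ C * S := by linarith
      nlinarith [mul_le_mul_of_nonneg_left h8 h5]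
    exact le_of_mul_le_mul_right h7 h6

section frame

variable [Module.Finite (MonoidAlgebra ℤ Γ) P] [Module.Projective (MonoidAlgebra ℤ Γ) P]

/-- the frame of a positive definite nonsingular form -/
theorem exists_frame (hns : h.Nonsingular) (hp : h.PosDef) :
    ∃ (n : ℕ) (F : Frame P (Fin n × Γ)), F.B = h.B := by
  obtain ⟨n, x, z, hxz⟩ := h.exists_dual hns
  exact ⟨n, ⟨h.B, h.B_add, h.B_symm, hp, (fun p => act p.2 (x p.1)), h.phi z, h.recon hxz, h.lf x,
    (∑ i, ∑ j, l1 (h.val (z i) (z j))), hp.coer z⟩, rfl⟩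

end frame

end HermForm

end Pool.Agent.V8H85.RF
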